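import Pool.Agent.Lib.MP_7c5fb9_nt.TOR.Defs

set_option autoImplicit false

/-!
# Key lemma, part A: the filtration and the operators
-/

namespace Pool.Agent.Lib.MP_7c5fb9_nt

namespace TOR

namespace KL

open scoped Quaternion

noncomputable section

/-- The quaternion with given coordinates. -/
def mkq (a b c d : ℤ) : ℍ[ℤ] := ⟨a, b, c, d⟩

@[simp] theorem mkq_re (a b c d : ℤ) : (mkq a b c d).re = a := rfl
@[simp] theorem mkq_imI (a b c d : ℤ) : (mkq a b c d).imI = b := rfl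
@[simp] theorem mkq_imJ (a b c d : ℤ) : (mkq a b c d).imJ = c := rfl
@[simp] theorem mkq_imK (a b c d : ℤ) : (mkq a b c d).imK = d := rfl

/-- The space of all functions. -/
abbrev Fn := ℍ[ℤ] → ZMod 3

/-- Its operators. -/
abbrev Op := Module.End (ZMod 3) Fn

/-- The action of quaternions as linear operators. -/
def R : ℍ[ℤ] →* Op where
  toFun q := { toFun := rho q, map_add' := fun _ _ => rfl, map_smul' := fun _ _ => rfl }
  map_one' := by
    ext F x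
    change F (star 1 * x * 1) = F x
    simp
  map_mul' p q := by
    ext F x
    change F (star (p * q) * x * (p * q)) = F (star q * (star p * x * p) * q)
    simp only [star_mul, mul_assoc]

theorem R_apply (q : ℍ[ℤ]) (F : Fn) (x : ℍ[ℤ]) : R q F x = F (star q * x * q) := rfl

/-- The functions of level `3 ^ m`. -/
def A (m : ℕ) : Submodule (ZMod 3) Fn where
  carrier := {F | Lev m F}
  add_mem' {F G} hF hG :=
    { per := fun x y => by rw [Pi.add_apply, hF.per, hG.per, Pi.add_apply]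
      scal := fun c x h => by rw [Pi.add_apply, hF.scal c x h, hG.scal c x h, Pi.add_apply]
      real := fun r x => by rw [Pi.add_apply, hF.real, hG.real, Pi.add_apply]
      supp := fun x h => by rw [Pi.add_apply, hF.supp x h, hG.supp x h, add_zero] }
  zero_mem' := ⟨fun _ _ => rfl, fun _ _ _ => rfl, fun _ _ => rfl, fun _ _ => rfl⟩
  smul_mem' a F hF :=
    { per := fun x y => by rw [Pi.smul_apply, hF.per, Pi.smul_apply]
      scal := fun c x h => by rw [Pi.smul_apply, hF.scal c x h, Pi.smul_apply]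
      real := fun r x => by rw [Pi.smul_apply, hF.real, Pi.smul_apply]
      supp := fun x h => by rw [Pi.smul_apply, hF.supp x h, smul_zero] }

theorem mem_A {m : ℕ} {F : Fn} : F ∈ A m ↔ Lev m F := Iff.rfl

/-- The norm of the imaginary part of `q̄ x q`. -/
theorem nim (q x : ℍ[ℤ]) :
    (star q * x * q).imI ^ 2 + (star q * x * q).imJ ^ 2 + (star q * x * q).imK ^ 2 =
      (q.re ^ 2 + q.imI ^ 2 + q.imJ ^ 2 + q.imK ^ 2) ^ 2 *
        (x.imI ^ 2 + x.imJ ^ 2 + x.imK ^ 2) := by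
  simp only [Quaternion.imI_mul, Quaternion.imJ_mul, Quaternion.imK_mul, Quaternion.re_mul,
    Quaternion.re_star, Quaternion.imI_star, Quaternion.imJ_star, Quaternion.imK_star]
  ring

/-- The reduced norm. -/
def nq (q : ℍ[ℤ]) : ℤ := q.re ^ 2 + q.imI ^ 2 + q.imJ ^ 2 + q.imK ^ 2

theorem star_mul_self' (q : ℍ[ℤ]) : star q * q = ((nq q : ℤ) : ℍ[ℤ]) := by
  ext <;> simp only [Quaternion.imI_mul, Quaternion.imJ_mul, Quaternion.imK_mul,
    Quaternion.re_mul, Quaternion.re_star, Quaternion.imI_star, Quaternion.imJ_star,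
    Quaternion.imK_star, Quaternion.re_intCast, Quaternion.imI_intCast, Quaternion.imJ_intCast,
    Quaternion.imK_intCast, nq, Int.cast_id] <;> ring

theorem mul_star_self' (q : ℍ[ℤ]) : q * star q = ((nq q : ℤ) : ℍ[ℤ]) := by
  ext <;> simp only [Quaternion.imI_mul, Quaternion.imJ_mul, Quaternion.imK_mul,
    Quaternion.re_mul, Quaternion.re_star, Quaternion.imI_star, Quaternion.imJ_star,
    Quaternion.imK_star, Quaternion.re_intCast, Quaternion.imI_intCast, Quaternion.imJ_intCast,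
    Quaternion.imK_intCast, nq, Int.cast_id] <;> ring

theorem sq_mod_three {c : ℤ} (h : ¬ (3 : ℤ) ∣ c) : c ^ 2 % 3 = 1 := by
  have h1 : c % 3 = 1 ∨ c % 3 = 2 := by omega
  rcases h1 with h1 | h1 <;> simp [pow_two, Int.mul_emod, h1]

theorem int_comm (c : ℤ) (x : ℍ[ℤ]) : (c : ℍ[ℤ]) * x = x * c := Int.cast_commute c x

theorem R_mem {m : ℕ} {q : ℍ[ℤ]} (hq : ¬ (3 : ℤ) ∣ nq q) {F : Fn} (hF : F ∈ A m) :
    R q F ∈ A m := by
  rw [mem_A] at hF ⊢
  refine ⟨fun x y => ?_, fun c x h => ?_, fun r x => ?_, fun x h => ?_⟩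
  · rw [R_apply, R_apply]
    have : star q * (x + 3 ^ m * y) * q = star q * x * q + 3 ^ m * (star q * y * q) := by
      have h3 : star q * (3 ^ m * y) = 3 ^ m * (star q * y) := by
        have := int_comm (3 ^ m) (star q)
        push_cast at this
        rw [← mul_assoc, ← this, mul_assoc]
      rw [mul_add, add_mul, h3, mul_assoc (3 ^ m)]
    rw [this, hF.per]
  · rw [R_apply, R_apply]
    have : star q * ((c : ℍ[ℤ]) * x) * q = (c : ℍ[ℤ]) * (star q * x * q) := by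
      rw [← mul_assoc, ← int_comm, mul_assoc, mul_assoc, mul_assoc]
    rw [this, hF.scal c _ h]
  · rw [R_apply, R_apply]
    have : star q * (x + (r : ℍ[ℤ])) * q = star q * x * q + ((r * nq q : ℤ) : ℍ[ℤ]) := by
      rw [mul_add, add_mul, ← int_comm, mul_assoc (r : ℍ[ℤ]), star_mul_self']
      push_cast
      rfl
    rw [this, hF.real]
  · rw [R_apply]
    refine hF.supp _ ?_
    rw [nim]
    have h1 := sq_mod_three hq
    unfold nq at h1
    rw [Int.mul_emod, h1, one_mul, Int.emod_emod_of_dvd _ (dvd_refl 3)]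
    exact h

/-- Scalars act trivially. -/
theorem R_int {m : ℕ} {c : ℤ} (hc : ¬ (3 : ℤ) ∣ c) {F : Fn} (hF : F ∈ A m) :
    R (c : ℍ[ℤ]) F = F := by
  ext x
  rw [R_apply]
  have : star (c : ℍ[ℤ]) * x * (c : ℍ[ℤ]) = (c : ℍ[ℤ]) * ((c : ℍ[ℤ]) * x) := by
    rw [star_intCast, mul_assoc, ← int_comm]
  rw [this, (mem_A.mp hF).scal _ _ hc, (mem_A.mp hF).scal _ _ hc]

/-- Quaternions congruent to a scalar modulo the level act trivially. -/
theorem R_level {m : ℕ} {c : ℤ} (hc : ¬ (3 : ℤ) ∣ c) (w : ℍ[ℤ]) {F : Fn} (hF : F ∈ A m) :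
    R ((c : ℍ[ℤ]) + 3 ^ m * w) F = F := by
  have h := mem_A.mp hF
  ext x
  rw [R_apply]
  have h3 : ∀ y : ℍ[ℤ], y * 3 ^ m = 3 ^ m * y := by
    intro y
    have := int_comm (3 ^ m) y
    push_cast at this
    exact this.symm
  have : star ((c : ℍ[ℤ]) + 3 ^ m * w) * x * ((c : ℍ[ℤ]) + 3 ^ m * w) =
      (c : ℍ[ℤ]) * ((c : ℍ[ℤ]) * x) + 3 ^ m * ((c : ℍ[ℤ]) * x * w + star w * x * c +
        3 ^ m * (star w * x * w)) := by
    have e1 : star ((c : ℍ[ℤ]) + 3 ^ m * w) = (c : ℍ[ℤ]) + 3 ^ m * star w := by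
      rw [star_add, star_intCast, star_mul, ← h3]
      simp
    rw [e1, add_mul, add_mul, mul_add, mul_add]
    have e2 : (c : ℍ[ℤ]) * x * (c : ℍ[ℤ]) = (c : ℍ[ℤ]) * ((c : ℍ[ℤ]) * x) := by
      rw [mul_assoc, ← int_comm]
    have e3 : (c : ℍ[ℤ]) * x * (3 ^ m * w) = 3 ^ m * ((c : ℍ[ℤ]) * x * w) := by
      rw [← mul_assoc, h3, mul_assoc]
    have e4 : 3 ^ m * star w * x * (c : ℍ[ℤ]) = 3 ^ m * (star w * x * c) := by
      simp only [mul_assoc]
    have e5 : 3 ^ m * star w * x * (3 ^ m * w) = 3 ^ m * (3 ^ m * (star w * x * w)) := by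
      rw [← mul_assoc (3 ^ m * star w * x), h3]
      simp only [mul_assoc]
    rw [e2, e3, e4, e5]
    simp only [mul_add]
    abel
  rw [this, h.per, h.scal _ _ hc, h.scal _ _ hc]

/-! ### The filtration -/

/-- `1 + 3 i`, `1 + 3 j`, `1 + 3 k`. -/
def qg (a : Fin 3) : ℍ[ℤ] := mkq 1 (if a = 0 then 3 else 0) (if a = 1 then 3 else 0)
  (if a = 2 then 3 else 0)

/-- The operators `X, Y, Z`. -/
def X (a : Fin 3) : Op := R (qg a) - 1

theorem X_mem {m : ℕ} (a : Fin 3) {F : Fn} (hF : F ∈ A m) : X a F ∈ A m := by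
  unfold X
  rw [LinearMap.sub_apply, Module.End.one_apply]
  refine Submodule.sub_mem _ (R_mem ?_ hF) hF
  fin_cases a <;> simp [qg, nq]

/-- The filtration. -/
def Fil (m : ℕ) : ℕ → Submodule (ZMod 3) Fn
  | 0 => ⊥
  | d + 1 => A m ⊓ ⨅ a : Fin 3, (Fil m d).comap (X a)

theorem mem_Fil_succ {m d : ℕ} {F : Fn} :
    F ∈ Fil m (d + 1) ↔ F ∈ A m ∧ ∀ a, X a F ∈ Fil m d := by
  simp [Fil, Submodule.mem_iInf]

theorem Fil_le_A {m d : ℕ} : Fil m d ≤ A m := by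
  cases d with
  | zero => exact bot_le
  | succ d => exact fun F hF => (mem_Fil_succ.mp hF).1

theorem Fil_step {m d : ℕ} : Fil m d ≤ Fil m (d + 1) := by
  induction d with
  | zero => exact bot_le
  | succ d ih =>
    intro F hF
    rw [mem_Fil_succ] at hF ⊢
    exact ⟨hF.1, fun a => ih (hF.2 a)⟩

theorem Fil_mono {m d e : ℕ} (h : d ≤ e) : Fil m d ≤ Fil m e := by
  induction h with
  | refl => exact le_rfl
  | step _ ih => exact ih.trans Fil_step

/-- The operators lowering the filtration by `r`. -/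
def E (m r : ℕ) : Submodule (ZMod 3) Op where
  carrier := {L | ∀ d, ∀ F ∈ Fil m (d + r), L F ∈ Fil m d}
  add_mem' {L M} hL hM d F hF := by
    rw [LinearMap.add_apply]
    exact Submodule.add_mem _ (hL d F hF) (hM d F hF)
  zero_mem' d F _ := by
    rw [LinearMap.zero_apply]
    exact Submodule.zero_mem _
  smul_mem' a L hL d F hF := by
    rw [LinearMap.smul_apply]
    exact Submodule.smul_mem _ _ (hL d F hF)

theorem mem_E {m r : ℕ} {L : Op} : L ∈ E m r ↔ ∀ d, ∀ F ∈ Fil m (d + r), L F ∈ Fil m d := Iff.rfl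

theorem E_anti {m r s : ℕ} (h : r ≤ s) : E m s ≤ E m r := by
  intro L hL
  rw [mem_E] at hL ⊢
  intro d F hF
  have h1 : F ∈ Fil m ((d + r - s) + s) := Fil_mono (by omega) hF
  exact Fil_mono (by omega) (hL _ F h1)

theorem E_mul {m r s : ℕ} {L M : Op} (hL : L ∈ E m r) (hM : M ∈ E m s) : L * M ∈ E m (r + s) := by
  rw [mem_E] at *
  intro d F hF
  rw [Module.End.mul_apply]
  refine hL d _ (hM (d + r) F ?_)
  rwa [add_assoc]

theorem E_mul' {m r s t : ℕ} {L M : Op} (hL : L ∈ E m r) (hM : M ∈ E m s) (h : t ≤ r + s) :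
    L * M ∈ E m t := E_anti h (E_mul hL hM)

theorem one_mem_E {m : ℕ} : (1 : Op) ∈ E m 0 := fun _ _ hF => hF

theorem X_mem_E {m : ℕ} (a : Fin 3) : X a ∈ E m 1 := fun _ _ hF => (mem_Fil_succ.mp hF).2 a

theorem E_pow {m r : ℕ} {L : Op} (hL : L ∈ E m r) (n : ℕ) : L ^ n ∈ E m (n * r) := by
  induction n with
  | zero =>
    rw [pow_zero, zero_mul]
    exact one_mem_E
  | succ n ih =>
    rw [pow_succ]
    exact E_mul' ih hL (by rw [Nat.add_mul, one_mul])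

/-- Operators vanishing on the functions of level `3 ^ m`. -/
theorem mem_E_of_zero {m r : ℕ} {L : Op} (h : ∀ F ∈ A m, L F = 0) : L ∈ E m r := by
  rw [mem_E]
  intro d F hF
  rw [h F (Fil_le_A hF)]
  exact Submodule.zero_mem _

theorem three_zero : (3 : Op) = 0 := by
  ext F x
  change (3 : ℕ) • F x = 0
  rw [nsmul_eq_mul]
  have : ((3 : ℕ) : ZMod 3) = 0 := by decide
  rw [this, zero_mul]

instance : CharP Op 3 := by
  have hn : Nontrivial Op := inferInstance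
  exact charP_of_injective_algebraMap (algebraMap (ZMod 3) Op).injective 3

theorem sub_one_pow {g : Op} (n : ℕ) : g ^ 3 ^ n - 1 = (g - 1) ^ 3 ^ n := by
  rw [sub_pow_char_pow_of_commute 3 n (Commute.one_right g), one_pow]

/-! ### Powers of `1 + 3 i` -/

theorem pow_form (I : ℍ[ℤ]) (hI : I * I = -1) (n : ℕ) : ∃ a b : ℤ, a % 3 = 1 ∧ b % 3 = 1 ∧
    (1 + 3 * I) ^ 3 ^ n = (a : ℍ[ℤ]) + 3 ^ (n + 1) * ((b : ℍ[ℤ]) * I) := by
  induction n with
  | zero => exact ⟨1, 1, rfl, rfl, by simp⟩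
  | succ n ih =>
    obtain ⟨a, b, ha, hb, h⟩ := ih
    refine ⟨a ^ 3 - 3 ^ (2 * n + 3) * a * b ^ 2, a ^ 2 * b - 3 ^ (2 * n + 1) * b ^ 3, ?_, ?_, ?_⟩
    · have h1 : (3 : ℤ) ∣ 3 ^ (2 * n + 3) * a * b ^ 2 :=
        Dvd.dvd.mul_right (Dvd.dvd.mul_right (dvd_pow_self _ (by omega)) _) _
      have h2 : a ^ 3 % 3 = 1 := by
        simp [pow_succ, Int.mul_emod, ha]
      omega
    · have h1 : (3 : ℤ) ∣ 3 ^ (2 * n + 1) * b ^ 3 :=
        Dvd.dvd.mul_right (dvd_pow_self _ (by omega)) _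
      have h2 : a ^ 2 * b % 3 = 1 := by
        simp [pow_succ, Int.mul_emod, ha, hb]
      omega
    · rw [pow_succ, pow_mul, h]
      have e1 : ∀ u : ℤ, (3 : ℍ[ℤ]) ^ (n + 1) * ((u : ℍ[ℤ]) * I) = ((3 ^ (n + 1) * u : ℤ) : ℍ[ℤ]) * I := by
        intro u
        push_cast
        rw [mul_assoc]
      rw [e1]
      set v : ℤ := 3 ^ (n + 1) * b with hv
      have e2 : ((a : ℍ[ℤ]) + (v : ℍ[ℤ]) * I) ^ 3 =
          ((a ^ 3 - 3 * a * v ^ 2 : ℤ) : ℍ[ℤ]) + ((3 * a ^ 2 * v - v ^ 3 : ℤ) : ℍ[ℤ]) * I := by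
        have c1 : I * (a : ℍ[ℤ]) = a * I := (int_comm a I).symm
        have c2 : I * (v : ℍ[ℤ]) = v * I := (int_comm v I).symm
        have c3 : (v : ℍ[ℤ]) * (a : ℍ[ℤ]) = a * v := int_comm v _
        have s1 : ((a : ℍ[ℤ]) + (v : ℍ[ℤ]) * I) * ((a : ℍ[ℤ]) + (v : ℍ[ℤ]) * I) =
            ((a ^ 2 - v ^ 2 : ℤ) : ℍ[ℤ]) + ((2 * a * v : ℤ) : ℍ[ℤ]) * I := by
          have : ((a : ℍ[ℤ]) + (v : ℍ[ℤ]) * I) * ((a : ℍ[ℤ]) + (v : ℍ[ℤ]) * I) =
              a * a + a * (v * I) + v * (I * a) + v * (I * v) * I := by noncomm_ring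
          rw [this, c1, c2, mul_assoc (v : ℍ[ℤ]) _ I, mul_assoc (v : ℍ[ℤ]) I I, hI,
            ← mul_assoc (v : ℍ[ℤ]) a I, c3]
          push_cast
          noncomm_ring
        rw [pow_succ, pow_two, s1]
        have : (((a ^ 2 - v ^ 2 : ℤ) : ℍ[ℤ]) + ((2 * a * v : ℤ) : ℍ[ℤ]) * I) *
            ((a : ℍ[ℤ]) + (v : ℍ[ℤ]) * I) =
            ((a ^ 2 - v ^ 2 : ℤ) : ℍ[ℤ]) * a + ((a ^ 2 - v ^ 2 : ℤ) : ℍ[ℤ]) * v * I +
            ((2 * a * v : ℤ) : ℍ[ℤ]) * (I * a) + ((2 * a * v : ℤ) : ℍ[ℤ]) * (I * v) * I := by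
          noncomm_ring
        rw [this, c1, c2, mul_assoc ((2 * a * v : ℤ) : ℍ[ℤ]) (_ * I) I, mul_assoc (v : ℍ[ℤ]) I I,
          hI, ← mul_assoc ((2 * a * v : ℤ) : ℍ[ℤ]) a I, mul_neg_one, mul_neg]
        simp only [← Int.cast_mul]
        rw [← Int.cast_neg]
        have : ∀ p q r s : ℤ, (p : ℍ[ℤ]) + (q : ℍ[ℤ]) * I + (r : ℍ[ℤ]) * I + (s : ℍ[ℤ]) =
            ((p + s : ℤ) : ℍ[ℤ]) + ((q + r : ℤ) : ℍ[ℤ]) * I := by
          intro p q r s
          push_cast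
          noncomm_ring
        rw [this, show (a ^ 2 - v ^ 2) * a + -(2 * a * v * v) = a ^ 3 - 3 * a * v ^ 2 by ring,
          show (a ^ 2 - v ^ 2) * v + 2 * a * v * a = 3 * a ^ 2 * v - v ^ 3 by ring]
      have e3 : ∀ u : ℤ, (3 : ℍ[ℤ]) ^ (n + 1 + 1) * ((u : ℍ[ℤ]) * I) =
          ((3 ^ (n + 1 + 1) * u : ℤ) : ℍ[ℤ]) * I := by
        intro u
        push_cast
        rw [mul_assoc]
      rw [e2, e3, show a ^ 3 - 3 * a * v ^ 2 = a ^ 3 - 3 ^ (2 * n + 3) * a * b ^ 2 by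
        rw [hv]; ring, show 3 * a ^ 2 * v - v ^ 3 =
          3 ^ (n + 1 + 1) * (a ^ 2 * b - 3 ^ (2 * n + 1) * b ^ 3) by rw [hv]; ring]

end

end KL

end TOR

end Pool.Agent.Lib.MP_7c5fb9_nt
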