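import Pool.Agent.Lib.MP_7c5fb9_nt.TOR.KL.A

set_option autoImplicit false

/-!
# Key lemma, part B: deep elements lower the filtration a lot
-/

namespace Pool.Agent.Lib.MP_7c5fb9_nt

namespace TOR

namespace KL

open scoped Quaternion

noncomputable section

/-- `i, j, k`. -/
def Iq (a : Fin 3) : ℍ[ℤ] := mkq 0 (if a = 0 then 1 else 0) (if a = 1 then 1 else 0)
  (if a = 2 then 1 else 0)

theorem Iq_sq (a : Fin 3) : Iq a * Iq a = -1 := by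
  fin_cases a <;> rfl

theorem qg_eq (a : Fin 3) : qg a = 1 + 3 * Iq a := by
  fin_cases a <;> rfl

theorem R_qg (a : Fin 3) : R (qg a) = 1 + X a := by
  unfold X
  abel

theorem R_qg_mem {m : ℕ} (a : Fin 3) : R (qg a) ∈ E m 0 := by
  rw [R_qg]
  exact Submodule.add_mem _ one_mem_E (E_anti (by omega) (X_mem_E a))

theorem R_pow_sub {m : ℕ} (a : Fin 3) (j : ℕ) : R (qg a ^ 3 ^ j) - 1 ∈ E m (3 ^ j) := by
  rw [map_pow, sub_one_pow]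
  have := E_pow (m := m) (X_mem_E a) (3 ^ j)
  rwa [mul_one] at this

/-- The elements `(1 + 3 i) ^ (3 ^ j t)`, `t = 0, 1, 2`. -/
def Hs (a : Fin 3) (j : ℕ) (h : ℍ[ℤ]) : Prop :=
  h = 1 ∨ h = qg a ^ 3 ^ j ∨ h = qg a ^ 3 ^ j * qg a ^ 3 ^ j

theorem Hs_mem {m : ℕ} {a : Fin 3} {j : ℕ} {h : ℍ[ℤ]} (hh : Hs a j h) :
    R h - 1 ∈ E m (3 ^ j) ∧ R h ∈ E m 0 := by
  have hR : R (qg a ^ 3 ^ j) ∈ E m 0 := by
    rw [map_pow]
    have := E_pow (m := m) (R_qg_mem a) (3 ^ j)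
    rwa [mul_zero] at this
  rcases hh with rfl | rfl | rfl
  · rw [map_one, sub_self]
    exact ⟨Submodule.zero_mem _, one_mem_E⟩
  · exact ⟨R_pow_sub a j, hR⟩
  · rw [map_mul]
    have : R (qg a ^ 3 ^ j) * R (qg a ^ 3 ^ j) - 1 =
        (R (qg a ^ 3 ^ j) - 1) * R (qg a ^ 3 ^ j) + (R (qg a ^ 3 ^ j) - 1) := by
      rw [sub_mul, one_mul]
      abel
    refine ⟨?_, E_mul' hR hR (by omega)⟩
    rw [this]
    exact Submodule.add_mem _ (E_mul' (R_pow_sub a j) hR (by omega)) (R_pow_sub a j)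

theorem exists_h (a : Fin 3) (j : ℕ) (t : ℤ) : ∃ (u v : ℤ) (h : ℍ[ℤ]),
    u % 3 = 1 ∧ (v - t) % 3 = 0 ∧ h = (u : ℍ[ℤ]) + 3 ^ (j + 1) * ((v : ℍ[ℤ]) * Iq a) ∧
    Hs a j h := by
  obtain ⟨u, v, hu, hv, h⟩ := pow_form (Iq a) (Iq_sq a) j
  rw [← qg_eq] at h
  have h0 : t % 3 = 0 ∨ t % 3 = 1 ∨ t % 3 = 2 := by omega
  rcases h0 with h0 | h0 | h0
  · exact ⟨1, 0, 1, rfl, by omega, by simp, Or.inl rfl⟩
  · exact ⟨u, v, qg a ^ 3 ^ j, hu, by omega, h, Or.inr (Or.inl rfl)⟩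
  · refine ⟨u ^ 2 - (3 ^ (j + 1) * v) ^ 2, 2 * u * v, qg a ^ 3 ^ j * qg a ^ 3 ^ j, ?_, ?_, ?_,
      Or.inr (Or.inr rfl)⟩
    · have h1 : (3 : ℤ) ∣ (3 ^ (j + 1) * v) ^ 2 := by
        refine Dvd.dvd.pow (Dvd.dvd.mul_right (dvd_pow_self _ (by omega)) _) (by omega)
      have h2 : u ^ 2 % 3 = 1 := by simp [pow_two, Int.mul_emod, hu]
      omega
    · have h2 : (2 * u * v) % 3 = 2 := by simp [Int.mul_emod, hu, hv]
      omega
    · rw [h]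
      have e1 : ∀ w : ℤ, (3 : ℍ[ℤ]) ^ (j + 1) * ((w : ℍ[ℤ]) * Iq a) =
          ((3 ^ (j + 1) * w : ℤ) : ℍ[ℤ]) * Iq a := by
        intro w
        push_cast
        rw [mul_assoc]
      rw [e1, e1]
      set w : ℤ := 3 ^ (j + 1) * v with hw
      have c1 : Iq a * (u : ℍ[ℤ]) = u * Iq a := (int_comm u _).symm
      have c2 : Iq a * (w : ℍ[ℤ]) = w * Iq a := (int_comm w _).symm
      have : ((u : ℍ[ℤ]) + (w : ℍ[ℤ]) * Iq a) * ((u : ℍ[ℤ]) + (w : ℍ[ℤ]) * Iq a) =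
          u * u + (u * w) * Iq a + w * (Iq a * u) + w * (Iq a * w) * Iq a := by noncomm_ring
      rw [this, c1, c2, mul_assoc (w : ℍ[ℤ]) _ (Iq a), mul_assoc (w : ℍ[ℤ]) (Iq a) (Iq a), Iq_sq,
        ← mul_assoc (w : ℍ[ℤ]) u (Iq a), int_comm w u]
      have e2 : ((3 ^ (j + 1) * (2 * u * v) : ℤ) : ℍ[ℤ]) = 2 * u * w := by
        rw [show 3 ^ (j + 1) * (2 * u * v) = 2 * u * w by rw [hw]; ring]
        push_cast
        rfl
      rw [e2]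
      push_cast
      noncomm_ring

theorem nq_form {u : ℤ} (w : ℍ[ℤ]) (n : ℕ) (hu : ¬ (3 : ℤ) ∣ u) :
    ¬ (3 : ℤ) ∣ nq ((u : ℍ[ℤ]) + 3 ^ (n + 1) * w) := by
  have h3 : (3 : ℍ[ℤ]) ^ (n + 1) = ((3 ^ (n + 1) : ℤ) : ℍ[ℤ]) := by push_cast; rfl
  have h1 : nq ((u : ℍ[ℤ]) + 3 ^ (n + 1) * w) = u ^ 2 +
      3 ^ (n + 1) * (2 * u * w.re + 3 ^ (n + 1) * nq w) := by
    rw [h3]
    simp only [nq, Quaternion.re_add, Quaternion.imI_add, Quaternion.imJ_add,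
      Quaternion.imK_add, Quaternion.re_mul, Quaternion.imI_mul, Quaternion.imJ_mul,
      Quaternion.imK_mul, Quaternion.re_intCast, Quaternion.imI_intCast, Quaternion.imJ_intCast,
      Quaternion.imK_intCast, Int.cast_id]
    ring
  rw [h1]
  have h2 := sq_mod_three hu
  have h4 : (3 : ℤ) ∣ 3 ^ (n + 1) * (2 * u * w.re + 3 ^ (n + 1) * nq w) :=
    Dvd.dvd.mul_right (dvd_pow_self _ (by omega)) _
  omega

theorem step {m r : ℕ} {h k : ℍ[ℤ]} (hh : ¬ (3 : ℤ) ∣ nq h) (h1 : R (k * star h) - 1 ∈ E m r)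
    (h2 : R h - 1 ∈ E m r) (h3 : R h ∈ E m 0) : R k - 1 ∈ E m r := by
  have e : R k - 1 = ((R (k * star h) - 1) * R h + (R h - 1)) +
      (R k - R (k * star h) * R h) := by
    rw [sub_mul, one_mul]
    abel
  rw [e]
  refine Submodule.add_mem _ (Submodule.add_mem _ (E_mul' h1 h3 (by omega)) h2) ?_
  refine mem_E_of_zero fun F hF => ?_
  rw [← map_mul, mul_assoc, star_mul_self', map_mul, LinearMap.sub_apply, Module.End.mul_apply,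
    R_int hh hF, sub_self]

theorem stepB (a : Fin 3) (j : ℕ) (c : ℤ) (hc : ¬ (3 : ℤ) ∣ c) (w : ℍ[ℤ]) :
    ∃ (h : ℍ[ℤ]) (c' : ℤ) (w' : ℍ[ℤ]), Hs a j h ∧ ¬ (3 : ℤ) ∣ nq h ∧ ¬ (3 : ℤ) ∣ c' ∧
      ((c : ℍ[ℤ]) + 3 ^ (j + 1) * w) * star h = (c' : ℍ[ℤ]) + 3 ^ (j + 1) * w' ∧
      vec w' a % 3 = 0 ∧ ∀ b, b ≠ a → vec w' b % 3 = vec w b % 3 := by
  obtain ⟨u, v, h, hu, hv, hh, hHs⟩ := exists_h a j (c * vec w a)
  have h3 : (3 : ℍ[ℤ]) ^ (j + 1) = ((3 ^ (j + 1) : ℤ) : ℍ[ℤ]) := by push_cast; rfl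
  have hI : star (Iq a) = - Iq a := by
    fin_cases a <;> rfl
  have hsh : star h = (u : ℍ[ℤ]) - 3 ^ (j + 1) * ((v : ℍ[ℤ]) * Iq a) := by
    rw [hh, h3, star_add, star_intCast, star_mul, star_mul, hI, star_intCast, star_intCast,
      ← int_comm v, ← int_comm (3 ^ (j + 1))]
    noncomm_ring
  refine ⟨h, c * u,
    (u : ℍ[ℤ]) * w - (c * v : ℤ) * Iq a - 3 ^ (j + 1) * ((v : ℍ[ℤ]) * (w * Iq a)),
    hHs, ?_, ?_, ?_, ?_, ?_⟩
  · rw [hh]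
    exact nq_form _ _ (by omega)
  · intro hcu
    rcases Int.prime_three.dvd_or_dvd hcu with h4 | h4
    · exact hc h4
    · omega
  · have : ((c : ℍ[ℤ]) + 3 ^ (j + 1) * w) * star h = ((c * u : ℤ) : ℍ[ℤ]) + 3 ^ (j + 1) *
          ((u : ℍ[ℤ]) * w - (c * v : ℤ) * Iq a - 3 ^ (j + 1) * ((v : ℍ[ℤ]) * (w * Iq a))) := by
        rw [hsh, h3]
        have e1 : ((c : ℍ[ℤ]) + ((3 ^ (j + 1) : ℤ) : ℍ[ℤ]) * w) *
            ((u : ℍ[ℤ]) - ((3 ^ (j + 1) : ℤ) : ℍ[ℤ]) * ((v : ℍ[ℤ]) * Iq a)) =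
            c * u - (c * ((3 ^ (j + 1) : ℤ) : ℍ[ℤ])) * ((v : ℍ[ℤ]) * Iq a) +
            ((3 ^ (j + 1) : ℤ) : ℍ[ℤ]) * (w * u) -
            ((3 ^ (j + 1) : ℤ) : ℍ[ℤ]) * (w * ((3 ^ (j + 1) : ℤ) : ℍ[ℤ])) * ((v : ℍ[ℤ]) * Iq a) := by
          noncomm_ring
        have e2 : w * (u : ℍ[ℤ]) = u * w := (int_comm u w).symm
        have e3 : w * ((3 ^ (j + 1) : ℤ) : ℍ[ℤ]) = ((3 ^ (j + 1) : ℤ) : ℍ[ℤ]) * w :=
          (int_comm _ w).symm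
        have e4 : (c : ℍ[ℤ]) * ((3 ^ (j + 1) : ℤ) : ℍ[ℤ]) = ((3 ^ (j + 1) : ℤ) : ℍ[ℤ]) * c :=
          int_comm c _
        have e5 : w * ((v : ℍ[ℤ]) * Iq a) = (v : ℍ[ℤ]) * (w * Iq a) := by
          rw [← mul_assoc, ← int_comm v w, mul_assoc]
        rw [e1, e2, e3, e4]
        simp only [mul_assoc]
        rw [e5]
        push_cast
        noncomm_ring
    rw [this]
  · rw [h3]
    have h5 : ((u - 1) * vec w a) % 3 = 0 := by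
      obtain ⟨k, hk⟩ : (3 : ℤ) ∣ u - 1 := by omega
      rw [hk, mul_assoc]
      exact Int.mul_emod_right 3 _
    have h6 : (c * (v - c * vec w a)) % 3 = 0 := by
      obtain ⟨k, hk⟩ : (3 : ℤ) ∣ v - c * vec w a := by omega
      rw [hk, mul_left_comm]
      exact Int.mul_emod_right 3 _
    have h7 : ((c ^ 2 - 1) * vec w a) % 3 = 0 := by
      have := sq_mod_three hc
      obtain ⟨k, hk⟩ : (3 : ℤ) ∣ c ^ 2 - 1 := by omega
      rw [hk, mul_assoc]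
      exact Int.mul_emod_right 3 _
    obtain ⟨k, hk⟩ : ∃ k : ℤ, vec ((u : ℍ[ℤ]) * w - (c * v : ℤ) * Iq a -
        ((3 ^ (j + 1) : ℤ) : ℍ[ℤ]) * ((v : ℍ[ℤ]) * (w * Iq a))) a =
        u * vec w a - c * v - 3 * k := by
      refine ⟨3 ^ j * (v * vec (w * Iq a) a), ?_⟩
      obtain ⟨p, hp⟩ : ∃ p : ℤ, p = 3 ^ (j + 1) := ⟨_, rfl⟩
      rw [← hp, show 3 * (3 ^ j * (v * vec (w * Iq a) a)) = p * (v * vec (w * Iq a) a) by
        rw [hp]; ring]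
      obtain ⟨q, hq⟩ : ∃ q : ℤ, q = c * v := ⟨_, rfl⟩
      rw [← hq]
      fin_cases a <;> simp [vec, Iq]
    rw [hk]
    have h8 : u * vec w a - c * v - 3 * k = (u - 1) * vec w a - c * (v - c * vec w a) -
      (c ^ 2 - 1) * vec w a - 3 * k := by ring
    rw [h8]
    omega
  · intro b hb
    rw [h3]
    have h5 : ((u - 1) * vec w b) % 3 = 0 := by
      obtain ⟨k, hk⟩ : (3 : ℤ) ∣ u - 1 := by omega
      rw [hk, mul_assoc]
      exact Int.mul_emod_right 3 _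
    obtain ⟨k, hk⟩ : ∃ k : ℤ, vec ((u : ℍ[ℤ]) * w - (c * v : ℤ) * Iq a -
        ((3 ^ (j + 1) : ℤ) : ℍ[ℤ]) * ((v : ℍ[ℤ]) * (w * Iq a))) b =
        u * vec w b - 3 * k := by
      refine ⟨3 ^ j * (v * vec (w * Iq a) b), ?_⟩
      obtain ⟨p, hp⟩ : ∃ p : ℤ, p = 3 ^ (j + 1) := ⟨_, rfl⟩
      rw [← hp, show 3 * (3 ^ j * (v * vec (w * Iq a) b)) = p * (v * vec (w * Iq a) b) by
        rw [hp]; ring]
      obtain ⟨q, hq⟩ : ∃ q : ℤ, q = c * v := ⟨_, rfl⟩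
      rw [← hq]
      fin_cases a <;> fin_cases b <;> simp [vec, Iq] at hb ⊢
    rw [hk]
    have h8 : u * vec w b - 3 * k = vec w b + (u - 1) * vec w b - 3 * k := by ring
    rw [h8]
    omega

theorem stepA {m : ℕ} (a : Fin 3) (j : ℕ) (c : ℤ) (hc : ¬ (3 : ℤ) ∣ c) (w : ℍ[ℤ]) :
    ∃ (c' : ℤ) (w' : ℍ[ℤ]), ¬ (3 : ℤ) ∣ c' ∧
      (R ((c' : ℍ[ℤ]) + 3 ^ (j + 1) * w') - 1 ∈ E m (3 ^ j) →
        R ((c : ℍ[ℤ]) + 3 ^ (j + 1) * w) - 1 ∈ E m (3 ^ j)) ∧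
      vec w' a % 3 = 0 ∧ ∀ b, b ≠ a → vec w' b % 3 = vec w b % 3 := by
  obtain ⟨h, c', w', hHs, hn, hc', e, h0, h1⟩ := stepB a j c hc w
  refine ⟨c', w', hc', fun h2 => ?_, h0, h1⟩
  obtain ⟨h3, h4⟩ := Hs_mem (m := m) hHs
  refine step (h := h) hn ?_ h3 h4
  rw [e]
  exact h2

/-- If the imaginary part is divisible by `3`. -/
theorem deep (c : ℤ) (w : ℍ[ℤ]) (j : ℕ) (g0 : w.imI % 3 = 0) (g1 : w.imJ % 3 = 0)
    (g2 : w.imK % 3 = 0) (hc : ¬ (3 : ℤ) ∣ c) : ∃ (c' : ℤ) (w' : ℍ[ℤ]), ¬ (3 : ℤ) ∣ c' ∧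
      (c : ℍ[ℤ]) + 3 ^ (j + 1) * w = (c' : ℍ[ℤ]) + 3 ^ (j + 1 + 1) * w' := by
  have hw : w = (w.re : ℍ[ℤ]) + 3 * mkq 0 (w.imI / 3) (w.imJ / 3) (w.imK / 3) := by
    have h3 : (3 : ℍ[ℤ]) = ((3 : ℤ) : ℍ[ℤ]) := by norm_cast
    rw [h3]
    ext <;> simp only [Quaternion.re_add, Quaternion.imI_add, Quaternion.imJ_add,
      Quaternion.imK_add, Quaternion.re_mul, Quaternion.imI_mul, Quaternion.imJ_mul,
      Quaternion.imK_mul, Quaternion.re_intCast, Quaternion.imI_intCast,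
      Quaternion.imJ_intCast, Quaternion.imK_intCast, mkq_re, mkq_imI, mkq_imJ, mkq_imK,
      Int.cast_id] <;> omega
  refine ⟨c + 3 ^ (j + 1) * w.re, mkq 0 (w.imI / 3) (w.imJ / 3) (w.imK / 3), ?_, ?_⟩
  · have : (3 : ℤ) ∣ 3 ^ (j + 1) * w.re := Dvd.dvd.mul_right (dvd_pow_self _ (by omega)) _
    omega
  · conv_lhs => rw [hw]
    rw [mul_add, ← mul_assoc, ← pow_succ]
    push_cast
    exact (add_assoc _ _ _).symm

/-- (K1) elements congruent to a scalar modulo `3 ^ (j + 1)` lower the filtration by `3 ^ j`. -/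
theorem K1 {m : ℕ} : ∀ (n j : ℕ), m ≤ j + 1 + n → ∀ (c : ℤ) (w : ℍ[ℤ]), ¬ (3 : ℤ) ∣ c →
    R ((c : ℍ[ℤ]) + 3 ^ (j + 1) * w) - 1 ∈ E m (3 ^ j) := by
  intro n
  induction n with
  | zero =>
    intro j hj c w hc
    refine mem_E_of_zero fun F hF => ?_
    have : (3 : ℍ[ℤ]) ^ (j + 1) * w = 3 ^ m * (3 ^ (j + 1 - m) * w) := by
      rw [← mul_assoc, ← pow_add]
      congr 2
      omega
    rw [this, LinearMap.sub_apply, R_level hc _ hF, Module.End.one_apply, sub_self]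
  | succ n ih =>
    intro j hj c w hc
    obtain ⟨c₁, w₁, hc₁, h₁, e₁, -⟩ := stepA (m := m) 0 j c hc w
    obtain ⟨c₂, w₂, hc₂, h₂, e₂, f₂⟩ := stepA (m := m) 1 j c₁ hc₁ w₁
    obtain ⟨c₃, w₃, hc₃, h₃, e₃, f₃⟩ := stepA (m := m) 2 j c₂ hc₂ w₂
    refine h₁ (h₂ (h₃ ?_))
    have g0 : w₃.imI % 3 = 0 := by
      have := f₃ 0 (by decide)
      have h4 := f₂ 0 (by decide)
      simp only [vec, Matrix.cons_val_zero] at this h4 e₁
      omega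
    have g1 : w₃.imJ % 3 = 0 := by
      have := f₃ 1 (by decide)
      simp only [vec, Matrix.cons_val_one, Matrix.cons_val_zero] at this e₂
      omega
    have g2 : w₃.imK % 3 = 0 := by
      simpa [vec] using e₃
    obtain ⟨c', w', hc', hk⟩ := deep c₃ w₃ j g0 g1 g2 hc₃
    rw [hk]
    refine E_anti ?_ (ih (j + 1) (by omega) _ _ hc')
    exact Nat.pow_le_pow_right (by norm_num) (by omega)

theorem K1' {m : ℕ} (j : ℕ) (c : ℤ) (w : ℍ[ℤ]) (hc : ¬ (3 : ℤ) ∣ c) :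
    R ((c : ℍ[ℤ]) + 3 ^ (j + 1) * w) - 1 ∈ E m (3 ^ j) :=
  K1 m j (by omega) c w hc

/-- Quaternions congruent to a scalar modulo `3` preserve the filtration. -/
theorem R_mem_E {m : ℕ} (c : ℤ) (w : ℍ[ℤ]) (hc : ¬ (3 : ℤ) ∣ c) :
    R ((c : ℍ[ℤ]) + 3 * w) ∈ E m 0 := by
  have h := K1' (m := m) 0 c w hc
  rw [zero_add, pow_one] at h
  have := Submodule.add_mem _ (E_anti (Nat.zero_le _) h) one_mem_E
  rwa [sub_add_cancel] at this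

/-- Congruent quaternions act in a congruent way. -/
theorem K1c {m : ℕ} (j : ℕ) (c' d : ℤ) (w' v : ℍ[ℤ])
    (hc' : ¬ (3 : ℤ) ∣ c') (hd : ¬ (3 : ℤ) ∣ d) (p q : ℍ[ℤ])
    (hq : q = (c' : ℍ[ℤ]) + 3 * w') (h : p = d * q + 3 ^ (j + 1) * v) :
    R p - R q ∈ E m (3 ^ j) := by
  have hnq : ¬ (3 : ℤ) ∣ nq q := by
    rw [hq]
    have := nq_form w' 0 hc'
    rwa [zero_add, pow_one] at this
  have e : R p - R q = (R (p * star q) - 1) * R q + (R p - R (p * star q) * R q) := by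
    rw [sub_mul, one_mul]
    abel
  rw [e]
  refine Submodule.add_mem _ ?_ ?_
  · have h1 : p * star q = ((d * nq q : ℤ) : ℍ[ℤ]) + 3 ^ (j + 1) * (v * star q) := by
      rw [h, add_mul, mul_assoc, mul_star_self', mul_assoc]
      push_cast
      rfl
    have h2 : R (p * star q) - 1 ∈ E m (3 ^ j) := by
      rw [h1]
      refine K1' j _ _ ?_
      intro h3
      rcases Int.prime_three.dvd_or_dvd h3 with h4 | h4
      · exact hd h4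
      · exact hnq h4
    refine E_mul' h2 (s := 0) ?_ (by omega)
    rw [hq]
    exact R_mem_E _ _ hc'
  · refine mem_E_of_zero fun F hF => ?_
    rw [← map_mul, mul_assoc, star_mul_self', map_mul, LinearMap.sub_apply, Module.End.mul_apply,
      R_int hnq hF, sub_self]

end

end KL

end TOR

end Pool.Agent.Lib.MP_7c5fb9_nt
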