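import Pool.Agent.Lib.MP_7c5fb9_nt.TOR.KL.C

set_option autoImplicit false

/-!
# Key lemma, part D: invariant functions
-/

namespace Pool.Agent.Lib.MP_7c5fb9_nt

namespace TOR

namespace KL

open scoped Quaternion

noncomputable section

theorem R_fix {m : ℕ} {G : Fn} (hG : G ∈ Fil m 1) (c : ℤ) (w : ℍ[ℤ]) (hc : ¬ (3 : ℤ) ∣ c) :
    R ((c : ℍ[ℤ]) + 3 * w) G = G := by
  have h := K1' (m := m) 0 c w hc
  rw [zero_add, pow_one, pow_zero] at h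
  have h2 := h 0 G hG
  have h3 : R ((c : ℍ[ℤ]) + 3 * w) G - G = 0 := h2
  exact sub_eq_zero.mp h3

/-- The norm of the imaginary part. -/
def ni (x : ℍ[ℤ]) : ℤ := x.imI ^ 2 + x.imJ ^ 2 + x.imK ^ 2

/-- The identity behind the descent. -/
theorem move (a b c d e f p r N : ℤ) (hN : a ^ 2 + b ^ 2 + c ^ 2 = 1 + 3 * N) (hp : p = 3 * r) :
    ∃ v' : ℍ[ℤ], mkq 0 a b c + (p : ℍ[ℤ]) * mkq 0 d e f =
      ((1 + p * (a * d + b * e + c * f) : ℤ) : ℍ[ℤ]) *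
        (star ((1 : ℤ) + 3 * ((r : ℍ[ℤ]) * mkq 0 (b * f - c * e) (c * d - a * f) (a * e - b * d))) *
          mkq 0 a b c *
          ((1 : ℤ) + 3 * ((r : ℍ[ℤ]) * mkq 0 (b * f - c * e) (c * d - a * f) (a * e - b * d)))) +
        ((3 * p : ℤ) : ℍ[ℤ]) * v' := by
  obtain ⟨M, hMd⟩ : ∃ M, M = a ^ 2 + b ^ 2 + c ^ 2 := ⟨_, rfl⟩
  obtain ⟨s, hs⟩ : ∃ s, s = a * d + b * e + c * f := ⟨_, rfl⟩
  obtain ⟨n, hn⟩ : ∃ n, n = (b * f - c * e) ^ 2 + (c * d - a * f) ^ 2 + (a * e - b * d) ^ 2 :=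
    ⟨_, rfl⟩
  have h3 : (3 : ℍ[ℤ]) = ((3 : ℤ) : ℍ[ℤ]) := by norm_cast
  refine ⟨mkq 0
    (-(s * a - (1 + 2 * N) * d + r * (-(n * a) + 2 * s * (s * a - M * d) - p * s * n * a)))
    (-(s * b - (1 + 2 * N) * e + r * (-(n * b) + 2 * s * (s * b - M * e) - p * s * n * b)))
    (-(s * c - (1 + 2 * N) * f + r * (-(n * c) + 2 * s * (s * c - M * f) - p * s * n * c))), ?_⟩
  rw [h3]
  ext <;> simp only [Quaternion.re_add, Quaternion.imI_add, Quaternion.imJ_add,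
        Quaternion.imK_add, Quaternion.re_mul, Quaternion.imI_mul, Quaternion.imJ_mul,
        Quaternion.imK_mul, Quaternion.re_intCast, Quaternion.imI_intCast,
        Quaternion.imJ_intCast, Quaternion.imK_intCast, mkq_re, mkq_imI, mkq_imJ, mkq_imK,
        Int.cast_id, Quaternion.re_star, Quaternion.imI_star, Quaternion.imJ_star,
        Quaternion.imK_star]
  · rw [hn, hMd, hs, hp]
    ring
  · rw [hn, hMd, hs, hp]
    linear_combination (6 * r * d) * hN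
  · rw [hn, hMd, hs, hp]
    linear_combination (6 * r * e) * hN
  · rw [hn, hMd, hs, hp]
    linear_combination (6 * r * f) * hN

theorem pure_add_re (x : ℍ[ℤ]) : x = mkq 0 x.imI x.imJ x.imK + ((x.re : ℤ) : ℍ[ℤ]) := by
  ext <;> simp

/-- (K3) invariant functions only depend on the point modulo `3`. -/
theorem K3step {m : ℕ} {G : Fn} (hG : G ∈ Fil m 1) : ∀ n j : ℕ, m ≤ j + 1 + n →
    ∀ x v : ℍ[ℤ], ni x % 3 = 1 → G (x + 3 ^ (j + 1) * v) = G x := by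
  have hL := mem_A.mp (Fil_le_A hG)
  intro n
  induction n with
  | zero =>
    intro j hj x v _
    have : (3 : ℍ[ℤ]) ^ (j + 1) * v = 3 ^ m * (3 ^ (j + 1 - m) * v) := by
      rw [← mul_assoc, ← pow_add]
      congr 2
      omega
    rw [this, hL.per]
  | succ n ih =>
    intro j hj x v hx
    obtain ⟨N, hN⟩ : ∃ N, ni x = 1 + 3 * N := ⟨ni x / 3, by omega⟩
    obtain ⟨v', hv'⟩ := move x.imI x.imJ x.imK v.imI v.imJ v.imK (3 ^ (j + 1)) (3 ^ j) N hN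
      (by rw [pow_succ]; ring)
    set s : ℤ := x.imI * v.imI + x.imJ * v.imJ + x.imK * v.imK with hs
    set w : ℍ[ℤ] := ((3 ^ j : ℤ) : ℍ[ℤ]) * mkq 0 (x.imJ * v.imK - x.imK * v.imJ)
      (x.imK * v.imI - x.imI * v.imK) (x.imI * v.imJ - x.imJ * v.imI) with hw
    have hp : (3 : ℍ[ℤ]) ^ (j + 1) = ((3 ^ (j + 1) : ℤ) : ℍ[ℤ]) := by push_cast; rfl
    have e1 : x + 3 ^ (j + 1) * v = (mkq 0 x.imI x.imJ x.imK +
        ((3 ^ (j + 1) : ℤ) : ℍ[ℤ]) * mkq 0 v.imI v.imJ v.imK) +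
        ((x.re + 3 ^ (j + 1) * v.re : ℤ) : ℍ[ℤ]) := by
      rw [hp]
      ext <;> simp only [Quaternion.re_add, Quaternion.imI_add, Quaternion.imJ_add,
        Quaternion.imK_add, Quaternion.re_mul, Quaternion.imI_mul, Quaternion.imJ_mul,
        Quaternion.imK_mul, Quaternion.re_intCast, Quaternion.imI_intCast,
        Quaternion.imJ_intCast, Quaternion.imK_intCast, mkq_re, mkq_imI, mkq_imJ, mkq_imK,
        Int.cast_id] <;> ring
    have hns : ¬ (3 : ℤ) ∣ 1 + 3 ^ (j + 1) * s := by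
      have : (3 : ℤ) ∣ 3 ^ (j + 1) * s := Dvd.dvd.mul_right (dvd_pow_self _ (by omega)) _
      omega
    have e2 : ((3 * 3 ^ (j + 1) : ℤ) : ℍ[ℤ]) * v' = 3 ^ (j + 1 + 1) * v' := by
      rw [pow_succ' (3 : ℍ[ℤ]) (j + 1)]
      push_cast
      rfl
    have hq : ¬ (3 : ℤ) ∣ nq (((1 : ℤ) : ℍ[ℤ]) + 3 * w) := by
      have := nq_form w 0 (u := 1) (by decide)
      rwa [zero_add, pow_one] at this
    rw [e1, hL.real, hv', e2, ih (j + 1) (by omega), hL.scal _ _ hns]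
    · have h4 : R (((1 : ℤ) : ℍ[ℤ]) + 3 * w) G (mkq 0 x.imI x.imJ x.imK) =
          G (mkq 0 x.imI x.imJ x.imK) := by rw [R_fix hG 1 w (by decide)]
      rw [R_apply] at h4
      rw [h4]
      conv_rhs => rw [pure_add_re x]
      rw [hL.real]
    · have h5 : ∀ (t : ℤ) (y : ℍ[ℤ]), ni ((t : ℍ[ℤ]) * y) = t ^ 2 * ni y := by
        intro t y
        simp only [ni, Quaternion.imI_mul, Quaternion.imJ_mul, Quaternion.imK_mul,
          Quaternion.re_intCast, Quaternion.imI_intCast, Quaternion.imJ_intCast,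
          Quaternion.imK_intCast, Int.cast_id]
        ring
      rw [h5]
      have h6 := nim (((1 : ℤ) : ℍ[ℤ]) + 3 * w) (mkq 0 x.imI x.imJ x.imK)
      have h7 : ni (star (((1 : ℤ) : ℍ[ℤ]) + 3 * w) * mkq 0 x.imI x.imJ x.imK *
          (((1 : ℤ) : ℍ[ℤ]) + 3 * w)) = nq (((1 : ℤ) : ℍ[ℤ]) + 3 * w) ^ 2 * ni x := h6
      rw [h7]
      have h8 := sq_mod_three hns
      have h9 := sq_mod_three hq
      rw [Int.mul_emod, h8, Int.mul_emod (_ ^ 2) (ni x), h9, hx]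
      rfl

theorem K3 {m : ℕ} {G : Fn} (hG : G ∈ Fil m 1) {x : ℍ[ℤ]} (hx : ni x % 3 = 1) :
    ∃ a, G x = G (Iq a) := by
  have hL := mem_A.mp (Fil_le_A hG)
  have h1 : ∀ x v : ℍ[ℤ], ni x % 3 = 1 → G (x + 3 * v) = G x := by
    intro x v hx
    have := K3step hG m 0 (by omega) x v hx
    rwa [zero_add, pow_one] at this
  -- congruent points
  have h2 : ∀ x : ℍ[ℤ], ∀ a : Fin 3, (∀ b, 3 ∣ vec x b - vec (Iq a) b) → G x = G (Iq a) := by
    intro x a hb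
    have e : x = (Iq a + 3 * mkq 0 ((x.imI - (Iq a).imI) / 3) ((x.imJ - (Iq a).imJ) / 3)
        ((x.imK - (Iq a).imK) / 3)) + ((x.re : ℤ) : ℍ[ℤ]) := by
      have h0 := hb 0
      have h1 := hb 1
      have h2 := hb 2
      simp only [vec, Matrix.cons_val_zero, Matrix.cons_val_one, Matrix.cons_val] at h0 h1 h2
      have h3 : (3 : ℍ[ℤ]) = ((3 : ℤ) : ℍ[ℤ]) := by norm_cast
      have h4 : (Iq a).re = 0 := rfl
      rw [h3]
      ext <;> simp only [Quaternion.re_add, Quaternion.imI_add, Quaternion.imJ_add,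
        Quaternion.imK_add, Quaternion.re_mul, Quaternion.imI_mul, Quaternion.imJ_mul,
        Quaternion.imK_mul, Quaternion.re_intCast, Quaternion.imI_intCast,
        Quaternion.imJ_intCast, Quaternion.imK_intCast, mkq_re, mkq_imI, mkq_imJ, mkq_imK,
        Int.cast_id, h4] <;> omega
    rw [e, hL.real, h1]
    fin_cases a <;> decide
  have hn : G (-x) = G x := by
    have := hL.scal (-1) x (by decide)
    rwa [Int.cast_neg, Int.cast_one, neg_one_mul] at this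
  have q : ∀ t : ℤ, (t % 3 = 0 ∧ t ^ 2 % 3 = 0) ∨ (t % 3 = 1 ∧ t ^ 2 % 3 = 1) ∨
      (t % 3 = 2 ∧ t ^ 2 % 3 = 1) := by
    intro t
    have h : t % 3 = 0 ∨ t % 3 = 1 ∨ t % 3 = 2 := by omega
    rcases h with h | h | h <;> simp [pow_two, Int.mul_emod, h]
  have hx' : (x.imI ^ 2 + x.imJ ^ 2 + x.imK ^ 2) % 3 = 1 := hx
  have hv : ∀ y : ℍ[ℤ], vec y 0 = y.imI ∧ vec y 1 = y.imJ ∧ vec y 2 = y.imK :=
    fun y => ⟨rfl, rfl, rfl⟩
  have hi : ∀ y : ℍ[ℤ], ∀ a : Fin 3, (3 ∣ y.imI - (Iq a).imI) → (3 ∣ y.imJ - (Iq a).imJ) →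
      (3 ∣ y.imK - (Iq a).imK) → G y = G (Iq a) := by
    intro y a h0 h1 h2'
    refine h2 y a fun b => ?_
    fin_cases b
    · exact h0
    · exact h1
    · exact h2'
  have i0 : (Iq 0).imI = 1 ∧ (Iq 0).imJ = 0 ∧ (Iq 0).imK = 0 := ⟨rfl, rfl, rfl⟩
  have i1 : (Iq 1).imI = 0 ∧ (Iq 1).imJ = 1 ∧ (Iq 1).imK = 0 := ⟨rfl, rfl, rfl⟩
  have i2 : (Iq 2).imI = 0 ∧ (Iq 2).imJ = 0 ∧ (Iq 2).imK = 1 := ⟨rfl, rfl, rfl⟩
  have ng : (-x).imI = -x.imI ∧ (-x).imJ = -x.imJ ∧ (-x).imK = -x.imK :=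
    ⟨Quaternion.imI_neg x, Quaternion.imJ_neg x, Quaternion.imK_neg x⟩
  rcases q x.imI with ⟨a1, a2⟩ | ⟨a1, a2⟩ | ⟨a1, a2⟩ <;>
    rcases q x.imJ with ⟨b1, b2⟩ | ⟨b1, b2⟩ | ⟨b1, b2⟩ <;>
    rcases q x.imK with ⟨c1, c2⟩ | ⟨c1, c2⟩ | ⟨c1, c2⟩ <;>
    first
    | (exfalso; omega)
    | exact ⟨0, hi x 0 (by omega) (by omega) (by omega)⟩
    | exact ⟨1, hi x 1 (by omega) (by omega) (by omega)⟩
    | exact ⟨2, hi x 2 (by omega) (by omega) (by omega)⟩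
    | exact ⟨0, hn ▸ hi (-x) 0 (by omega) (by omega) (by omega)⟩
    | exact ⟨1, hn ▸ hi (-x) 1 (by omega) (by omega) (by omega)⟩
    | exact ⟨2, hn ▸ hi (-x) 2 (by omega) (by omega) (by omega)⟩

theorem K3_zero {m : ℕ} {G : Fn} (hG : G ∈ Fil m 1) (h : ∀ a, G (Iq a) = 0) : G = 0 := by
  have hL := mem_A.mp (Fil_le_A hG)
  ext x
  by_cases hx : ni x % 3 = 1
  · obtain ⟨a, ha⟩ := K3 hG hx
    rw [ha, h a]
    rfl
  · exact hL.supp x hx

end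

end KL

end TOR

end Pool.Agent.Lib.MP_7c5fb9_nt
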