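import Pool.Agent.Lib.MP_7c5fb9_nt.TOR.KL.D

set_option autoImplicit false
set_option linter.unusedSimpArgs false

/-!
# Key lemma, part E: the symbols of the Hecke operators
-/

namespace Pool.Agent.Lib.MP_7c5fb9_nt

namespace TOR

namespace KL

open scoped Quaternion

noncomputable section

/-- `1 - 3 i`, `1 - 3 j`, `1 - 3 k`. -/
def qg' (a : Fin 3) : ℍ[ℤ] := star (qg a)

/-- The inverse operators minus one. -/
def X' (a : Fin 3) : Op := R (qg' a) - 1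

theorem R_qg' (a : Fin 3) : R (qg' a) = 1 + X' a := by
  unfold X'
  abel

theorem qg'_form (a : Fin 3) : qg' a = ((1 : ℤ) : ℍ[ℤ]) + 3 * (-Iq a) := by
  fin_cases a <;> rfl

theorem qg_form (a : Fin 3) : qg a = ((1 : ℤ) : ℍ[ℤ]) + 3 * Iq a := by
  fin_cases a <;> rfl

theorem X'_mem {m : ℕ} (a : Fin 3) : X' a ∈ E m 1 := by
  have h := K1' (m := m) 0 1 (-Iq a) (by decide)
  rw [zero_add, pow_one, pow_zero, ← qg'_form] at h
  exact h

/-- `q = 1 + 3 w`: the sum of the operators of `q` and `q̄`. -/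
theorem pair_mem {m : ℕ} (w : ℍ[ℤ]) (q : ℍ[ℤ]) (hq : q = ((1 : ℤ) : ℍ[ℤ]) + 3 * w) :
    R q + R (star q) - 2 ∈ E m 2 := by
  have hn : ¬ (3 : ℤ) ∣ nq q := by
    rw [hq]
    have := nq_form w 0 (u := 1) (by decide)
    rwa [zero_add, pow_one] at this
  have h1 : R q - 1 ∈ E m 1 := by
    have h := K1' (m := m) 0 1 w (by decide)
    rw [zero_add, pow_one, pow_zero, ← hq] at h
    exact h
  have hs : star q = ((1 : ℤ) : ℍ[ℤ]) + 3 * star w := by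
    rw [hq, star_add, star_intCast, star_mul]
    have h3 : (3 : ℍ[ℤ]) = ((3 : ℤ) : ℍ[ℤ]) := by norm_cast
    rw [h3, star_intCast, ← int_comm]
  have h2 : R (star q) - 1 ∈ E m 1 := by
    have h := K1' (m := m) 0 1 (star w) (by decide)
    rw [zero_add, pow_one, pow_zero, ← hs] at h
    exact h
  have e : R q + R (star q) - 2 = (R q * R (star q) - 1) - (R q - 1) * (R (star q) - 1) := by
    rw [sub_mul, mul_sub, one_mul, mul_one, ← one_add_one_eq_two]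
    abel
  rw [e]
  refine Submodule.sub_mem _ (mem_E_of_zero fun F hF => ?_) (E_mul' h1 h2 (by omega))
  rw [← map_mul, mul_star_self', LinearMap.sub_apply, R_int hn hF, Module.End.one_apply, sub_self]

/-- `g + g⁻¹ - 2`. -/
def Aa (a : Fin 3) : Op := R (qg a) + R (qg' a) - 2

theorem Aa_mem {m : ℕ} (a : Fin 3) : Aa a ∈ E m 2 := pair_mem (Iq a) _ (qg_form a)

theorem Aa_eq (a : Fin 3) : Aa a = X a + X' a := by
  unfold Aa X X'
  rw [← one_add_one_eq_two]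
  abel

theorem Aa_sub {m : ℕ} (a : Fin 3) : Aa a - X a * X a ∈ E m 3 := by
  have hn : ¬ (3 : ℤ) ∣ nq (qg a) := by
    rw [qg_form]
    have := nq_form (Iq a) 0 (u := 1) (by decide)
    rwa [zero_add, pow_one] at this
  have e : Aa a - X a * X a = (R (qg a) * R (qg' a) - 1) - X a * Aa a := by
    rw [R_qg, R_qg', Aa_eq]
    simp only [mul_add, add_mul, mul_one, one_mul]
    abel
  rw [e]
  refine Submodule.sub_mem _ (mem_E_of_zero fun F hF => ?_)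
    (E_mul' (X_mem_E a) (Aa_mem a) (by omega))
  rw [← map_mul, qg', mul_star_self', LinearMap.sub_apply, R_int hn hF, Module.End.one_apply,
    sub_self]

theorem three_smul_zero (L : Op) : (3 : ℤ) • L = 0 := by
  ext F x
  change (3 : ℤ) • (L F x) = 0
  rw [zsmul_eq_mul]
  have : ((3 : ℤ) : ZMod 3) = 0 := by decide
  rw [this, zero_mul]

theorem form_mul (c c' : ℤ) (w w' : ℍ[ℤ]) :
    ((c : ℍ[ℤ]) + 3 * w) * ((c' : ℍ[ℤ]) + 3 * w') =
      ((c * c' : ℤ) : ℍ[ℤ]) + 3 * ((c : ℍ[ℤ]) * w' + w * c' + 3 * (w * w')) := by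
  have h3 : (3 : ℍ[ℤ]) = ((3 : ℤ) : ℍ[ℤ]) := by norm_cast
  have h4 : (c : ℍ[ℤ]) * (((3 : ℤ) : ℍ[ℤ]) * w') = ((3 : ℤ) : ℍ[ℤ]) * ((c : ℍ[ℤ]) * w') := by
    rw [← mul_assoc, int_comm c, mul_assoc]
  have h5 : ((3 : ℤ) : ℍ[ℤ]) * w * (((3 : ℤ) : ℍ[ℤ]) * w') =
      ((3 : ℤ) : ℍ[ℤ]) * (((3 : ℤ) : ℍ[ℤ]) * (w * w')) := by
    rw [mul_assoc, ← mul_assoc w, ← int_comm 3 w, mul_assoc]
  rw [h3, add_mul, mul_add, mul_add, h4, h5, mul_assoc ((3 : ℤ) : ℍ[ℤ]) w]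
  simp only [mul_add, Int.cast_mul]
  abel

/-- `1 + 9 v`. -/
def nv (v₁ v₂ v₃ : ℤ) : ℍ[ℤ] := mkq 1 (9 * v₁) (9 * v₂) (9 * v₃)

/-- `1 + 3 u`. -/
def su (u₁ u₂ u₃ : ℤ) : ℍ[ℤ] := mkq 1 (3 * u₁) (3 * u₂) (3 * u₃)

theorem nv_form (v₁ v₂ v₃ : ℤ) : nv v₁ v₂ v₃ =
    ((1 : ℤ) : ℍ[ℤ]) + 3 * mkq 0 (3 * v₁) (3 * v₂) (3 * v₃) := by
  have h3 : (3 : ℍ[ℤ]) = ((3 : ℤ) : ℍ[ℤ]) := by norm_cast
  rw [h3]
  ext <;> simp only [nv, su, Quaternion.re_add, Quaternion.imI_add, Quaternion.imJ_add,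
      Quaternion.imK_add, Quaternion.re_mul, Quaternion.imI_mul, Quaternion.imJ_mul,
      Quaternion.imK_mul, Quaternion.re_intCast, Quaternion.imI_intCast,
      Quaternion.imJ_intCast, Quaternion.imK_intCast, mkq_re, mkq_imI, mkq_imJ, mkq_imK,
      Int.cast_id, Quaternion.re_neg, Quaternion.imI_neg, Quaternion.imJ_neg,
      Quaternion.imK_neg] <;> ring

theorem su_form (v₁ v₂ v₃ : ℤ) : su v₁ v₂ v₃ = ((1 : ℤ) : ℍ[ℤ]) + 3 * mkq 0 v₁ v₂ v₃ := by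
  have h3 : (3 : ℍ[ℤ]) = ((3 : ℤ) : ℍ[ℤ]) := by norm_cast
  rw [h3]
  ext <;> simp only [nv, su, Quaternion.re_add, Quaternion.imI_add, Quaternion.imJ_add,
      Quaternion.imK_add, Quaternion.re_mul, Quaternion.imI_mul, Quaternion.imJ_mul,
      Quaternion.imK_mul, Quaternion.re_intCast, Quaternion.imI_intCast,
      Quaternion.imJ_intCast, Quaternion.imK_intCast, mkq_re, mkq_imI, mkq_imJ, mkq_imK,
      Int.cast_id, Quaternion.re_neg, Quaternion.imI_neg, Quaternion.imJ_neg,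
      Quaternion.imK_neg] <;> ring

theorem nv_mem {m : ℕ} (v₁ v₂ v₃ : ℤ) : R (nv v₁ v₂ v₃) - 1 ∈ E m 3 := by
  have e : nv v₁ v₂ v₃ = ((1 : ℤ) : ℍ[ℤ]) + 3 ^ (1 + 1) * mkq 0 v₁ v₂ v₃ := by
    have h3 : (3 : ℍ[ℤ]) ^ (1 + 1) = ((9 : ℤ) : ℍ[ℤ]) := by norm_num
    rw [h3]
    ext <;> simp only [nv, su, Quaternion.re_add, Quaternion.imI_add, Quaternion.imJ_add,
      Quaternion.imK_add, Quaternion.re_mul, Quaternion.imI_mul, Quaternion.imJ_mul,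
      Quaternion.imK_mul, Quaternion.re_intCast, Quaternion.imI_intCast,
      Quaternion.imJ_intCast, Quaternion.imK_intCast, mkq_re, mkq_imI, mkq_imJ, mkq_imK,
      Int.cast_id, Quaternion.re_neg, Quaternion.imI_neg, Quaternion.imJ_neg,
      Quaternion.imK_neg] <;> ring
  rw [e]
  exact K1' 1 1 _ (by decide)

/-- products of three generators -/
theorem prod_mem {m : ℕ} (e₁ e₂ e₃ : ℤ) :
    R (su e₁ 0 0) * R (su 0 e₂ 0) * R (su 0 0 e₃) -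
      R (nv (e₂ * e₃) (-(e₁ * e₃)) (e₁ * e₂)) * R (su e₁ e₂ e₃) ∈ E m 5 := by
  rw [← map_mul, ← map_mul, ← map_mul]
  refine E_anti (s := 3 ^ 2) (by norm_num) ?_
  refine K1c 2 1 1 (mkq 0 (3 * (e₂ * e₃)) (3 * (-(e₁ * e₃))) (3 * (e₁ * e₂)) +
    mkq 0 e₁ e₂ e₃ + 3 * (mkq 0 (3 * (e₂ * e₃)) (3 * (-(e₁ * e₃))) (3 * (e₁ * e₂)) *
      mkq 0 e₁ e₂ e₃))
    (-mkq 0 (-(e₁ * e₃) * e₃ - e₁ * e₂ * e₂) (e₁ * e₂ * e₁ - e₂ * e₃ * e₃)
      (e₂ * e₃ * e₂ - -(e₁ * e₃) * e₁)) (by decide) (by decide) _ _ ?_ ?_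
  · rw [nv_form, su_form, form_mul]
    simp only [Int.cast_one, one_mul, mul_one, mul_add]
    abel
  · have h3 : (3 : ℍ[ℤ]) ^ (2 + 1) = ((27 : ℤ) : ℍ[ℤ]) := by norm_num
    rw [h3]
    ext <;> simp only [nv, su, Quaternion.re_add, Quaternion.imI_add, Quaternion.imJ_add,
      Quaternion.imK_add, Quaternion.re_mul, Quaternion.imI_mul, Quaternion.imJ_mul,
      Quaternion.imK_mul, Quaternion.re_intCast, Quaternion.imI_intCast,
      Quaternion.imJ_intCast, Quaternion.imK_intCast, mkq_re, mkq_imI, mkq_imJ, mkq_imK,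
      Int.cast_id, Quaternion.re_neg, Quaternion.imI_neg, Quaternion.imJ_neg,
      Quaternion.imK_neg] <;> ring

/-- The cube of `X` in terms of signs. -/
theorem sgn_mem {m : ℕ} (a : Fin 3) (e : ℤ) (he : e = 1 ∨ e = -1) :
    R (nv (if a = 0 then e else 0) (if a = 1 then e else 0) (if a = 2 then e else 0)) - 1 -
      e • (X a * X a * X a) ∈ E m 5 := by
  have hX : X a * X a * X a = R (qg a ^ 3) - 1 := by
    have := sub_one_pow (g := R (qg a)) 1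
    rw [pow_one, ← map_pow] at this
    rw [this]
    unfold X
    rw [pow_succ, pow_two]
  have hX' : X' a * X' a * X' a = R (qg' a ^ 3) - 1 := by
    have := sub_one_pow (g := R (qg' a)) 1
    rw [pow_one, ← map_pow] at this
    rw [this]
    unfold X'
    rw [pow_succ, pow_two]
  have hc : Commute (X a) (X' a) := by
    have : Commute (qg a) (qg' a) := by
      fin_cases a <;> rfl
    have h2 : Commute (R (qg a)) (R (qg' a)) := this.map R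
    exact (h2.sub_left (Commute.one_left _)).sub_right (Commute.one_right _)
  have hsum : X a * X a * X a + X' a * X' a * X' a ∈ E m 5 := by
    have h1 : (X a + X' a) ^ 3 = X a ^ 3 + X' a ^ 3 := add_pow_char_of_commute 3 hc
    have h2 : X a * X a * X a + X' a * X' a * X' a = (X a + X' a) ^ 3 := by
      rw [h1, pow_succ, pow_two, pow_succ, pow_two]
    rw [h2, ← Aa_eq]
    exact E_anti (by norm_num) (E_pow (Aa_mem a) 3)
  rcases he with rfl | rfl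
  · rw [one_smul, hX]
    have e1 : R (nv (if a = 0 then 1 else 0) (if a = 1 then 1 else 0) (if a = 2 then 1 else 0)) -
        1 - (R (qg a ^ 3) - 1) = -(R (qg a ^ 3) - R (nv (if a = 0 then 1 else 0)
          (if a = 1 then 1 else 0) (if a = 2 then 1 else 0))) := by abel
    rw [e1]
    refine Submodule.neg_mem _ (E_anti (s := 3 ^ 2) (by norm_num) ?_)
    refine K1c 2 1 1 (mkq 0 (if a = 0 then 3 else 0) (if a = 1 then 3 else 0)
      (if a = 2 then 3 else 0)) (mkq (-1) (if a = 0 then -1 else 0) (if a = 1 then -1 else 0)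
      (if a = 2 then -1 else 0)) (by decide) (by decide) _ _ ?_ ?_
    · fin_cases a <;> rfl
    · fin_cases a <;> rfl
  · have e0 : R (nv (if a = 0 then -1 else 0) (if a = 1 then -1 else 0)
        (if a = 2 then -1 else 0)) - 1 - (-1 : ℤ) • (X a * X a * X a) =
        -(R (qg' a ^ 3) - R (nv (if a = 0 then -1 else 0)
          (if a = 1 then -1 else 0) (if a = 2 then -1 else 0))) +
        (X a * X a * X a + X' a * X' a * X' a) := by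
      rw [hX', neg_smul, one_smul]
      abel
    rw [e0]
    refine Submodule.add_mem _ ?_ hsum
    refine Submodule.neg_mem _ (E_anti (s := 3 ^ 2) (by norm_num) ?_)
    refine K1c 2 1 1 (mkq 0 (if a = 0 then -3 else 0) (if a = 1 then -3 else 0)
      (if a = 2 then -3 else 0)) (mkq (-1) (if a = 0 then 1 else 0) (if a = 1 then 1 else 0)
      (if a = 2 then 1 else 0)) (by decide) (by decide) _ _ ?_ ?_
    · fin_cases a <;> rfl
    · fin_cases a <;> rfl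

/-- `v₁ X³ + v₂ Y³ + v₃ Z³`. -/
def Dv (v₁ v₂ v₃ : ℤ) : Op := v₁ • (X 0 * X 0 * X 0) + v₂ • (X 1 * X 1 * X 1) +
  v₃ • (X 2 * X 2 * X 2)

theorem nv_sub {m : ℕ} (v₁ v₂ v₃ : ℤ) (h₁ : v₁ = 1 ∨ v₁ = -1) (h₂ : v₂ = 1 ∨ v₂ = -1)
    (h₃ : v₃ = 1 ∨ v₃ = -1) : R (nv v₁ v₂ v₃) - 1 - Dv v₁ v₂ v₃ ∈ E m 5 := by
  have e0 := sgn_mem (m := m) 0 v₁ h₁
  have e1 := sgn_mem (m := m) 1 v₂ h₂
  have e2 := sgn_mem (m := m) 2 v₃ h₃
  simp only [if_true, show (0 : Fin 3) ≠ 1 by decide, show (0 : Fin 3) ≠ 2 by decide,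
    show (1 : Fin 3) ≠ 0 by decide, show (1 : Fin 3) ≠ 2 by decide,
    show (2 : Fin 3) ≠ 0 by decide, show (2 : Fin 3) ≠ 1 by decide, if_false] at e0 e1 e2
  have n0 := nv_mem (m := m) v₁ 0 0
  have n1 := nv_mem (m := m) 0 v₂ 0
  have n2 := nv_mem (m := m) 0 0 v₃
  have hp : R (nv v₁ 0 0) * R (nv 0 v₂ 0) * R (nv 0 0 v₃) - R (nv v₁ v₂ v₃) ∈ E m 5 := by
    rw [← map_mul, ← map_mul]
    refine E_anti (s := 3 ^ 2) (by norm_num) ?_
    refine K1c 2 1 1 (mkq 0 (3 * v₁) (3 * v₂) (3 * v₃))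
      (mkq (-(27 * v₁ * v₂ * v₃)) (3 * v₂ * v₃) (-(3 * v₁ * v₃)) (3 * v₁ * v₂))
      (by decide) (by decide) _ _ (nv_form _ _ _) ?_
    have h3 : (3 : ℍ[ℤ]) ^ (2 + 1) = ((27 : ℤ) : ℍ[ℤ]) := by norm_num
    rw [h3]
    ext <;> simp only [nv, su, Quaternion.re_add, Quaternion.imI_add, Quaternion.imJ_add,
      Quaternion.imK_add, Quaternion.re_mul, Quaternion.imI_mul, Quaternion.imJ_mul,
      Quaternion.imK_mul, Quaternion.re_intCast, Quaternion.imI_intCast,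
      Quaternion.imJ_intCast, Quaternion.imK_intCast, mkq_re, mkq_imI, mkq_imJ, mkq_imK,
      Int.cast_id, Quaternion.re_neg, Quaternion.imI_neg, Quaternion.imJ_neg,
      Quaternion.imK_neg] <;> ring
  obtain ⟨P, hP⟩ : ∃ P, P = R (nv v₁ 0 0) - 1 := ⟨_, rfl⟩
  obtain ⟨Q, hQ⟩ : ∃ Q, Q = R (nv 0 v₂ 0) - 1 := ⟨_, rfl⟩
  obtain ⟨T, hT⟩ : ∃ T, T = R (nv 0 0 v₃) - 1 := ⟨_, rfl⟩
  have f1 : R (nv v₁ 0 0) = P + 1 := by rw [hP]; abel
  have f2 : R (nv 0 v₂ 0) = Q + 1 := by rw [hQ]; abel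
  have f3 : R (nv 0 0 v₃) = T + 1 := by rw [hT]; abel
  rw [← hP] at e0 n0
  rw [← hQ] at e1 n1
  rw [← hT] at e2 n2
  rw [f1, f2, f3] at hp
  have e : R (nv v₁ v₂ v₃) - 1 - Dv v₁ v₂ v₃ =
      -((P + 1) * (Q + 1) * (T + 1) - R (nv v₁ v₂ v₃)) +
      ((P - v₁ • (X 0 * X 0 * X 0)) + (Q - v₂ • (X 1 * X 1 * X 1)) +
        (T - v₃ • (X 2 * X 2 * X 2))) + (P * Q + P * T + Q * T + P * Q * T) := by
    unfold Dv
    simp only [add_mul, mul_add, one_mul, mul_one]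
    abel
  rw [e]
  refine Submodule.add_mem _ (Submodule.add_mem _ (Submodule.neg_mem _ hp)
    (Submodule.add_mem _ (Submodule.add_mem _ e0 e1) e2)) ?_
  refine Submodule.add_mem _ (Submodule.add_mem _ (Submodule.add_mem _ ?_ ?_) ?_) ?_
  · exact E_mul' n0 n1 (by omega)
  · exact E_mul' n0 n2 (by omega)
  · exact E_mul' n1 n2 (by omega)
  · exact E_mul' (E_mul n0 n1) n2 (by omega)

theorem star_su (u₁ u₂ u₃ : ℤ) : star (su u₁ u₂ u₃) = su (-u₁) (-u₂) (-u₃) := by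
  ext <;> simp [su]

/-- Opposite signs together. -/
theorem quad_mem {m : ℕ} (e₁ e₂ e₃ : ℤ) (h₁ : e₁ = 1 ∨ e₁ = -1) (h₂ : e₂ = 1 ∨ e₂ = -1)
    (h₃ : e₃ = 1 ∨ e₃ = -1) :
    (R (su e₁ 0 0) * R (su 0 e₂ 0) * R (su 0 0 e₃) +
      R (su (-e₁) 0 0) * R (su 0 (-e₂) 0) * R (su 0 0 (-e₃))) -
      (R (su e₁ e₂ e₃) + R (su (-e₁) (-e₂) (-e₃))) -
      (2 : ℤ) • Dv (e₂ * e₃) (-(e₁ * e₃)) (e₁ * e₂) ∈ E m 5 := by
  have p1 := prod_mem (m := m) e₁ e₂ e₃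
  have p2 := prod_mem (m := m) (-e₁) (-e₂) (-e₃)
  rw [neg_mul_neg, neg_mul_neg, neg_mul_neg] at p2
  have p3 : R (su e₁ e₂ e₃) + R (su (-e₁) (-e₂) (-e₃)) - 2 ∈ E m 2 := by
    rw [← star_su]
    exact pair_mem _ _ (su_form _ _ _)
  have p4 := nv_mem (m := m) (e₂ * e₃) (-(e₁ * e₃)) (e₁ * e₂)
  have p5 := nv_sub (m := m) (e₂ * e₃) (-(e₁ * e₃)) (e₁ * e₂)
    (by rcases h₂ with rfl | rfl <;> rcases h₃ with rfl | rfl <;> decide)
    (by rcases h₁ with rfl | rfl <;> rcases h₃ with rfl | rfl <;> decide)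
    (by rcases h₁ with rfl | rfl <;> rcases h₂ with rfl | rfl <;> decide)
  have p6 := E_mul' (t := 5) p4 p3 (by omega)
  obtain ⟨V, hV⟩ : ∃ V, V = R (nv (e₂ * e₃) (-(e₁ * e₃)) (e₁ * e₂)) := ⟨_, rfl⟩
  obtain ⟨D, hD⟩ : ∃ D, D = Dv (e₂ * e₃) (-(e₁ * e₃)) (e₁ * e₂) := ⟨_, rfl⟩
  rw [← hV] at p1 p2 p4 p5 p6
  rw [← hD] at p5 ⊢
  obtain ⟨S, hS⟩ : ∃ S, S = R (su e₁ e₂ e₃) := ⟨_, rfl⟩
  obtain ⟨S', hS'⟩ : ∃ S', S' = R (su (-e₁) (-e₂) (-e₃)) := ⟨_, rfl⟩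
  rw [← hS] at p1 p3 p6 ⊢
  rw [← hS'] at p2 p3 p6 ⊢
  obtain ⟨P, hP⟩ : ∃ P, P = R (su e₁ 0 0) * R (su 0 e₂ 0) * R (su 0 0 e₃) := ⟨_, rfl⟩
  obtain ⟨P', hP'⟩ : ∃ P', P' = R (su (-e₁) 0 0) * R (su 0 (-e₂) 0) * R (su 0 0 (-e₃)) :=
    ⟨_, rfl⟩
  rw [← hP] at p1 ⊢
  rw [← hP'] at p2 ⊢
  have e : P + P' - (S + S') - (2 : ℤ) • D = (P - V * S) + (P' - V * S') +
      (V - 1) * (S + S' - 2) + ((V - 1 - D) + (V - 1 - D)) := by
    rw [← one_add_one_eq_two (R := Op)]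
    simp only [sub_mul, mul_sub, mul_add, add_mul, one_mul, mul_one, two_smul]
    abel
  rw [e]
  exact Submodule.add_mem _ (Submodule.add_mem _ (Submodule.add_mem _ p1 p2) p6)
    (Submodule.add_mem _ p5 p5)

/-- `T_5` on functions invariant under the cube group. -/
def Op5 : Op := R (qg 0) + R (qg' 0) + (R (qg 1) + R (qg' 1)) + (R (qg 2) + R (qg' 2))

/-- `T_7` on functions invariant under the cube group. -/
def Op7 : Op := R (su 1 1 1) + R (su (-1) (-1) (-1)) + (R (su 1 1 (-1)) + R (su (-1) (-1) 1)) +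
  (R (su 1 (-1) 1) + R (su (-1) 1 (-1))) + (R (su (-1) 1 1) + R (su 1 (-1) (-1)))

theorem sym5 {m : ℕ} : Op5 - (X 0 * X 0 + X 1 * X 1 + X 2 * X 2) ∈ E m 3 := by
  have e : Op5 - (X 0 * X 0 + X 1 * X 1 + X 2 * X 2) = (Aa 0 - X 0 * X 0) +
      (Aa 1 - X 1 * X 1) + (Aa 2 - X 2 * X 2) + (3 : ℤ) • (2 : Op) := by
    unfold Op5 Aa
    rw [show (3 : ℤ) • (2 : Op) = 2 + 2 + 2 by
      rw [show (3 : ℤ) = 1 + 1 + 1 by norm_num, add_smul, add_smul, one_smul]]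
    abel
  rw [e, three_smul_zero, add_zero]
  exact Submodule.add_mem _ (Submodule.add_mem _ (Aa_sub 0) (Aa_sub 1)) (Aa_sub 2)

theorem sym7 {m : ℕ} : Op7 - Op5 - 2 - (2 : ℤ) • (X 0 * X 0 * (X 1 * X 1) +
    X 0 * X 0 * (X 2 * X 2) + X 1 * X 1 * (X 2 * X 2)) ∈ E m 5 := by
  have q1 := quad_mem (m := m) 1 1 1 (by decide) (by decide) (by decide)
  have q2 := quad_mem (m := m) 1 1 (-1) (by decide) (by decide) (by decide)
  have q3 := quad_mem (m := m) 1 (-1) 1 (by decide) (by decide) (by decide)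
  have q4 := quad_mem (m := m) (-1) 1 1 (by decide) (by decide) (by decide)
  norm_num only at q1 q2 q3 q4
  have s0 : R (su 1 0 0) = R (qg 0) := rfl
  have s0' : R (su (-1) 0 0) = R (qg' 0) := rfl
  have s1 : R (su 0 1 0) = R (qg 1) := rfl
  have s1' : R (su 0 (-1) 0) = R (qg' 1) := rfl
  have s2 : R (su 0 0 1) = R (qg 2) := rfl
  have s2' : R (su 0 0 (-1)) = R (qg' 2) := rfl
  rw [s0, s0', s1, s1', s2, s2'] at q1 q2 q3 q4
  obtain ⟨a, ha⟩ : ∃ a, a = R (qg 0) := ⟨_, rfl⟩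
  obtain ⟨a', ha'⟩ : ∃ a, a = R (qg' 0) := ⟨_, rfl⟩
  obtain ⟨b, hb⟩ : ∃ a, a = R (qg 1) := ⟨_, rfl⟩
  obtain ⟨b', hb'⟩ : ∃ a, a = R (qg' 1) := ⟨_, rfl⟩
  obtain ⟨c, hc⟩ : ∃ a, a = R (qg 2) := ⟨_, rfl⟩
  obtain ⟨c', hc'⟩ : ∃ a, a = R (qg' 2) := ⟨_, rfl⟩
  have A0 := Aa_mem (m := m) 0
  have A1 := Aa_mem (m := m) 1
  have A2 := Aa_mem (m := m) 2
  have B0 := Aa_sub (m := m) 0
  have B1 := Aa_sub (m := m) 1
  have B2 := Aa_sub (m := m) 2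
  have hX0 : X 0 * X 0 ∈ E m 2 := E_mul' (X_mem_E 0) (X_mem_E 0) (by omega)
  have hX1 : X 1 * X 1 ∈ E m 2 := E_mul' (X_mem_E 1) (X_mem_E 1) (by omega)
  obtain ⟨x, hx⟩ : ∃ x, x = X 0 * X 0 := ⟨_, rfl⟩
  obtain ⟨y, hy⟩ : ∃ x, x = X 1 * X 1 := ⟨_, rfl⟩
  obtain ⟨z, hz⟩ : ∃ x, x = X 2 * X 2 := ⟨_, rfl⟩
  rw [← hx] at B0 hX0 ⊢
  rw [← hy] at B1 hX1 ⊢
  rw [← hz] at B2 ⊢
  obtain ⟨u, hu⟩ : ∃ u, u = Aa 0 := ⟨_, rfl⟩
  obtain ⟨v, hv⟩ : ∃ u, u = Aa 1 := ⟨_, rfl⟩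
  obtain ⟨w, hw⟩ : ∃ u, u = Aa 2 := ⟨_, rfl⟩
  rw [← hu] at A0 B0
  rw [← hv] at A1 B1
  rw [← hw] at A2 B2
  have eu : a + a' = u + 1 + 1 := by
    rw [hu, Aa, ha, ha', ← one_add_one_eq_two (R := Op)]; abel
  have ev : b + b' = v + 1 + 1 := by
    rw [hv, Aa, hb, hb', ← one_add_one_eq_two (R := Op)]; abel
  have ew : c + c' = w + 1 + 1 := by
    rw [hw, Aa, hc, hc', ← one_add_one_eq_two (R := Op)]; abel
  rw [← ha, ← ha', ← hb, ← hb', ← hc, ← hc'] at q1 q2 q3 q4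
  have hS := Submodule.add_mem _ (Submodule.add_mem _ q1 q2) (Submodule.add_mem _ q3 q4)
  have hD : (2 : ℤ) • Dv 1 (-1) 1 + (2 : ℤ) • Dv (-1) 1 1 + ((2 : ℤ) • Dv (-1) (-1) (-1) +
      (2 : ℤ) • Dv 1 1 (-1)) = 0 := by
    unfold Dv
    module
  have h1 : (a + a') * (b + b') * (c + c') - Op7 ∈ E m 5 := by
    have e : (a + a') * (b + b') * (c + c') - Op7 = (a * b * c + a' * b' * c' -
        (R (su 1 1 1) + R (su (-1) (-1) (-1))) - (2 : ℤ) • Dv 1 (-1) 1 +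
        (a * b * c' + a' * b' * c - (R (su 1 1 (-1)) + R (su (-1) (-1) 1)) -
        (2 : ℤ) • Dv (-1) 1 1) + (a * b' * c + a' * b * c' - (R (su 1 (-1) 1) +
        R (su (-1) 1 (-1))) - (2 : ℤ) • Dv (-1) (-1) (-1) + (a' * b * c + a * b' * c' -
        (R (su (-1) 1 1) + R (su 1 (-1) (-1))) - (2 : ℤ) • Dv 1 1 (-1)))) +
        ((2 : ℤ) • Dv 1 (-1) 1 + (2 : ℤ) • Dv (-1) 1 1 + ((2 : ℤ) • Dv (-1) (-1) (-1) +
      (2 : ℤ) • Dv 1 1 (-1))) := by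
      unfold Op7
      simp only [add_mul, mul_add]
      abel
    rw [e, hD, add_zero]
    exact hS
  have h5 : Op5 = (a + a') + (b + b') + (c + c') := by
    rw [Op5, ha, ha', hb, hb', hc, hc']
  rw [eu, ev, ew] at h1 h5
  have e : Op7 - Op5 - 2 - (2 : ℤ) • (x * y + x * z + y * z) =
      -((u + 1 + 1) * (v + 1 + 1) * (w + 1 + 1) - Op7) + u * v * w +
      ((u - x) * v + x * (v - y) + ((u - x) * v + x * (v - y))) +
      ((u - x) * w + x * (w - z) + ((u - x) * w + x * (w - z))) +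
      ((v - y) * w + y * (w - z) + ((v - y) * w + y * (w - z))) + (3 : ℤ) • (u + v + w) := by
    rw [h5, ← one_add_one_eq_two (R := Op)]
    simp only [add_mul, mul_add, sub_mul, mul_sub, one_mul, mul_one]
    rw [show (3 : ℤ) • (u + v + w) = u + v + w + (u + v + w) + (u + v + w) by
      rw [show (3 : ℤ) = 1 + 1 + 1 by norm_num, add_smul, add_smul, one_smul], two_smul]
    abel
  rw [e, three_smul_zero, add_zero]
  refine Submodule.add_mem _ (Submodule.add_mem _ (Submodule.add_mem _ (Submodule.add_mem _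
    (Submodule.neg_mem _ h1) ?_) ?_) ?_) ?_
  · exact E_mul' (E_mul A0 A1) A2 (by omega)
  · have h : (u - x) * v + x * (v - y) ∈ E m 5 :=
      Submodule.add_mem _ (E_mul' B0 A1 (by omega)) (E_mul' hX0 B1 (by omega))
    exact Submodule.add_mem _ h h
  · have h : (u - x) * w + x * (w - z) ∈ E m 5 :=
      Submodule.add_mem _ (E_mul' B0 A2 (by omega)) (E_mul' hX0 B2 (by omega))
    exact Submodule.add_mem _ h h
  · have h : (v - y) * w + y * (w - z) ∈ E m 5 :=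
      Submodule.add_mem _ (E_mul' B1 A2 (by omega)) (E_mul' hX1 B2 (by omega))
    exact Submodule.add_mem _ h h

end

end KL

end TOR

end Pool.Agent.Lib.MP_7c5fb9_nt
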