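import Pool.Agent.Lib.MP_7c5fb9_nt.TOR.KL.E

set_option autoImplicit false
set_option linter.unusedSimpArgs false

/-!
# Key lemma, part F: words, symmetries
-/

namespace Pool.Agent.Lib.MP_7c5fb9_nt

namespace TOR

namespace KL

open scoped Quaternion

noncomputable section

/-- Products of the operators `X, Y, Z`. -/
def Wd (l : List (Fin 3)) : Op := (l.map X).prod

@[simp] theorem Wd_nil : Wd [] = 1 := rfl
theorem Wd_cons (a : Fin 3) (l : List (Fin 3)) : Wd (a :: l) = X a * Wd l := by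
  simp [Wd]
theorem Wd_append (l l' : List (Fin 3)) : Wd (l ++ l') = Wd l * Wd l' := by
  simp [Wd]
theorem Wd_replicate (n : ℕ) (a : Fin 3) : Wd (List.replicate n a) = X a ^ n := by
  simp [Wd]

theorem Wd_mem {m : ℕ} (l : List (Fin 3)) : Wd l ∈ E m l.length := by
  induction l with
  | nil => exact one_mem_E
  | cons a l ih =>
    rw [Wd_cons, List.length_cons]
    exact E_mul' (X_mem_E a) ih (by omega)

theorem comm_mem {m : ℕ} (a b : Fin 3) : X a * X b - X b * X a ∈ E m 3 := by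
  have e : X a * X b - X b * X a = R (qg a * qg b) - R (qg b * qg a) := by
    rw [map_mul, map_mul, X, X]
    simp only [sub_mul, mul_sub, one_mul, mul_one]
    abel
  rw [e]
  refine K1c 1 1 1 (((1 : ℤ) : ℍ[ℤ]) * Iq a + Iq b * (1 : ℤ) + 3 * (Iq b * Iq a))
    (Iq a * Iq b - Iq b * Iq a) (by decide) (by decide) _ _ ?_ ?_
  · rw [qg_form, qg_form, form_mul]
    simp
  · fin_cases a <;> fin_cases b <;> rfl

theorem Wd_perm {m : ℕ} {l l' : List (Fin 3)} (h : l.Perm l') :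
    Wd l - Wd l' ∈ E m (l.length + 1) := by
  induction h with
  | nil =>
    rw [sub_self]
    exact Submodule.zero_mem _
  | cons a h ih =>
    rw [Wd_cons, Wd_cons, ← mul_sub, List.length_cons]
    exact E_mul' (X_mem_E a) ih (by omega)
  | swap a b l =>
    rw [Wd_cons, Wd_cons, Wd_cons, Wd_cons, ← mul_assoc, ← mul_assoc, ← sub_mul]
    exact E_mul' (comm_mem _ _) (Wd_mem l) (by simp only [List.length_cons]; omega)
  | trans h h' ih ih' =>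
    rw [← sub_add_sub_cancel]
    refine Submodule.add_mem _ ih ?_
    rw [h.length_eq]
    exact ih'

theorem E_zero {m d : ℕ} {L : Op} (hL : L ∈ E m d) {F : Fn} (hF : F ∈ Fil m d) : L F = 0 := by
  have := hL 0 F (by rwa [zero_add])
  exact this

theorem Wd_perm_apply {m n : ℕ} {F : Fn} (hF : F ∈ Fil m (n + 1)) {l l' : List (Fin 3)}
    (h : l.Perm l') (hl : l.length = n) : Wd l F = Wd l' F := by
  have h1 := Wd_perm (m := m) h
  rw [hl] at h1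
  have := E_zero h1 hF
  rw [LinearMap.sub_apply] at this
  exact sub_eq_zero.mp this

theorem Wd_fil {m n : ℕ} {F : Fn} (hF : F ∈ Fil m (n + 1)) (l : List (Fin 3))
    (hl : l.length = n) : Wd l F ∈ Fil m 1 := by
  have := Wd_mem (m := m) l
  rw [hl] at this
  exact this 1 F (by rwa [add_comm])

theorem Wd_A {m : ℕ} {F : Fn} (hF : F ∈ A m) (l : List (Fin 3)) : Wd l F ∈ A m := by
  induction l with
  | nil => exact hF
  | cons a l ih =>
    rw [Wd_cons, Module.End.mul_apply]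
    exact X_mem a ih

/-- Membership in the filtration by words. -/
theorem mem_Fil_of_words {m : ℕ} : ∀ (n : ℕ) (F : Fn), F ∈ A m →
    (∀ l : List (Fin 3), l.length = n → Wd l F = 0) → F ∈ Fil m n := by
  intro n
  induction n with
  | zero =>
    intro F _ h
    exact h [] rfl
  | succ n ih =>
    intro F hF h
    refine mem_Fil_succ.mpr ⟨hF, fun a => ih _ (X_mem a hF) fun l hl => ?_⟩
    have := h (l ++ [a]) (by simp [hl])
    rw [Wd_append, Module.End.mul_apply, Wd_cons, Wd_nil, mul_one] at this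
    exact this

/-- `X G` vanishes at `i`. -/
theorem X_zero {m : ℕ} {G : Fn} (hG : G ∈ A m) (a : Fin 3) : X a G (Iq a) = 0 := by
  have h1 : star (qg a) * Iq a * qg a = ((10 : ℤ) : ℍ[ℤ]) * Iq a := by
    fin_cases a <;> rfl
  change R (qg a) G (Iq a) - G (Iq a) = 0
  rw [R_apply, h1, (mem_A.mp hG).scal _ _ (by decide), sub_self]

theorem pt_eq (x : Fin 3 → ℤ) : pt x = mkq 0 (x 0) (x 1) (x 2) := rfl

/-- Invariance of `F` under the unit-like quaternion `u`. -/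
theorem fix_of_cube {m : ℕ} {F : Fn} (hF : F ∈ A m) (hC : Cube F) (u : ℍ[ℤ]) (N : ℤ)
    (hN : ¬ (3 : ℤ) ∣ N) (σ : Equiv.Perm (Fin 3)) (ε : Fin 3 → ℤˣ)
    (h : ∀ x : Fin 3 → ℤ, star u * pt x * u = (N : ℍ[ℤ]) * pt fun i => (ε i : ℤ) * x (σ i)) :
    R u F = F := by
  have hL := mem_A.mp hF
  ext x
  rw [R_apply]
  have e : x = pt (vec x) + ((x.re : ℤ) : ℍ[ℤ]) := by
    rw [pt_eq]
    ext <;> simp [vec]
  have e2 : star u * x * u = star u * pt (vec x) * u + ((x.re * nq u : ℤ) : ℍ[ℤ]) := by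
    conv_lhs => rw [e]
    rw [mul_add, add_mul, ← int_comm, mul_assoc ((x.re : ℤ) : ℍ[ℤ]), star_mul_self']
    push_cast
    rfl
  rw [e2, hL.real, h, hL.scal _ _ hN, hC]
  conv_rhs => rw [e]
  rw [hL.real]

theorem fix_aux (x : Fin 3 → ℤ) :
    star (mkq 1 1 0 0) * pt x * mkq 1 1 0 0 = ((2 : ℤ) : ℍ[ℤ]) *
      pt (fun i => ((![1, 1, -1] : Fin 3 → ℤˣ) i : ℤ) * x (Equiv.swap 1 2 i)) ∧
    star (mkq 1 (-1) 0 0) * pt x * mkq 1 (-1) 0 0 = ((2 : ℤ) : ℍ[ℤ]) *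
      pt (fun i => ((![1, -1, 1] : Fin 3 → ℤˣ) i : ℤ) * x (Equiv.swap 1 2 i)) ∧
    star (mkq 1 0 1 0) * pt x * mkq 1 0 1 0 = ((2 : ℤ) : ℍ[ℤ]) *
      pt (fun i => ((![-1, 1, 1] : Fin 3 → ℤˣ) i : ℤ) * x (Equiv.swap 0 2 i)) ∧
    star (mkq 1 0 (-1) 0) * pt x * mkq 1 0 (-1) 0 = ((2 : ℤ) : ℍ[ℤ]) *
      pt (fun i => ((![1, 1, -1] : Fin 3 → ℤˣ) i : ℤ) * x (Equiv.swap 0 2 i)) := by
  have h0 : (Equiv.swap (1 : Fin 3) 2) 0 = 0 := by decide
  have h1 : (Equiv.swap (1 : Fin 3) 2) 1 = 2 := by decide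
  have h2 : (Equiv.swap (1 : Fin 3) 2) 2 = 1 := by decide
  have k0 : (Equiv.swap (0 : Fin 3) 2) 0 = 2 := by decide
  have k1 : (Equiv.swap (0 : Fin 3) 2) 1 = 1 := by decide
  have k2 : (Equiv.swap (0 : Fin 3) 2) 2 = 0 := by decide
  simp only [pt_eq, h0, h1, h2, k0, k1, k2]
  refine ⟨?_, ?_, ?_, ?_⟩ <;> ext <;> simp only [Quaternion.re_mul, Quaternion.imI_mul,
      Quaternion.imJ_mul, Quaternion.imK_mul, Quaternion.re_intCast, Quaternion.imI_intCast,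
      Quaternion.imJ_intCast, Quaternion.imK_intCast, mkq_re, mkq_imI, mkq_imJ, mkq_imK,
      Int.cast_id, Quaternion.re_star, Quaternion.imI_star, Quaternion.imJ_star,
      Quaternion.imK_star, Matrix.cons_val_zero, Matrix.cons_val_one, Matrix.cons_val,
      Units.val_neg, Units.val_one] <;> ring

/-- The four basic symmetries. -/
theorem fixes {m : ℕ} {F : Fn} (hF : F ∈ A m) (hC : Cube F) :
    R (mkq 1 1 0 0) F = F ∧ R (mkq 1 (-1) 0 0) F = F ∧ R (mkq 1 0 1 0) F = F ∧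
      R (mkq 1 0 (-1) 0) F = F :=
  ⟨fix_of_cube hF hC _ 2 (by decide) _ _ fun x => (fix_aux x).1,
    fix_of_cube hF hC _ 2 (by decide) _ _ fun x => (fix_aux x).2.1,
    fix_of_cube hF hC _ 2 (by decide) _ _ fun x => (fix_aux x).2.2.1,
    fix_of_cube hF hC _ 2 (by decide) _ _ fun x => (fix_aux x).2.2.2⟩

theorem fix_mul {F : Fn} {p q : ℍ[ℤ]} (hp : R p F = F) (hq : R q F = F) : R (p * q) F = F := by
  rw [map_mul, Module.End.mul_apply, hq, hp]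

theorem fix_scal {m : ℕ} {F : Fn} (hF : F ∈ A m) {p : ℍ[ℤ]} (c : ℤ) (hc : ¬ (3 : ℤ) ∣ c)
    (h : R ((c : ℍ[ℤ]) * p) F = F) (hp : ¬ (3 : ℤ) ∣ nq p) : R p F = F := by
  rw [map_mul, Module.End.mul_apply, R_int hc (R_mem hp hF)] at h
  exact h

/-- All symmetries needed. -/
theorem fix_all {m : ℕ} {F : Fn} (hF : F ∈ A m) (hC : Cube F) :
    (R (mkq 1 0 0 1) F = F ∧ R (mkq 1 0 0 (-1)) F = F ∧ R (mkq 0 0 1 0) F = F) ∧
    ∀ e₁ e₂ e₃ : ℤ, (e₁ = 1 ∨ e₁ = -1) → (e₂ = 1 ∨ e₂ = -1) → (e₃ = 1 ∨ e₃ = -1) →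
      R (mkq 1 e₁ e₂ e₃) F = F := by
  obtain ⟨a, a', b, b'⟩ := fixes hF hC
  have mk : ∀ (p q r : ℍ[ℤ]), p * q = r → R p F = F → R q F = F → R r F = F := by
    intro p q r h hp hq
    rw [← h]
    exact fix_mul hp hq
  have sc : ∀ (p r : ℍ[ℤ]), r = ((2 : ℤ) : ℍ[ℤ]) * p → ¬ (3 : ℤ) ∣ nq p → R r F = F →
      R p F = F := by
    intro p r h hp hr
    rw [h] at hr
    exact fix_scal hF 2 (by decide) hr hp
  have c : R (mkq 1 0 0 1) F = F :=
    sc _ (mkq 2 0 0 2) rfl (by decide) (mk (mkq 1 1 1 1) (mkq 1 (-1) 0 0) _ rfl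
      (mk (mkq 1 1 0 0) (mkq 1 0 1 0) _ rfl a b) a')
  have c' : R (mkq 1 0 0 (-1)) F = F :=
    sc _ (mkq 2 0 0 (-2)) rfl (by decide) (mk (mkq 1 1 (-1) (-1)) (mkq 1 (-1) 0 0) _ rfl
      (mk (mkq 1 1 0 0) (mkq 1 0 (-1) 0) _ rfl a b') a')
  have d : R (mkq 0 0 1 0) F = F :=
    sc _ (mkq 0 0 2 0) rfl (by decide) (mk (mkq 1 0 1 0) (mkq 1 0 1 0) _ rfl b b)
  refine ⟨⟨c, c', d⟩, ?_⟩
  rintro e₁ e₂ e₃ (rfl | rfl) (rfl | rfl) (rfl | rfl)
  · exact mk (mkq 1 1 0 0) (mkq 1 0 1 0) _ rfl a b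
  · exact mk (mkq 1 0 1 0) (mkq 1 1 0 0) _ rfl b a
  · exact mk (mkq 1 0 (-1) 0) (mkq 1 1 0 0) _ rfl b' a
  · exact mk (mkq 1 1 0 0) (mkq 1 0 (-1) 0) _ rfl a b'
  · exact mk (mkq 1 0 1 0) (mkq 1 (-1) 0 0) _ rfl b a'
  · exact mk (mkq 1 (-1) 0 0) (mkq 1 0 1 0) _ rfl a' b
  · exact mk (mkq 1 (-1) 0 0) (mkq 1 0 (-1) 0) _ rfl a' b'
  · exact mk (mkq 1 0 (-1) 0) (mkq 1 (-1) 0 0) _ rfl b' a'

/-- `T_5` and `T_7` on cube invariant functions. -/
theorem T5_eq {m : ℕ} {F : Fn} (hF : F ∈ A m) (hC : Cube F) : T5 F = Op5 F := by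
  obtain ⟨a, a', b, b'⟩ := fixes hF hC
  obtain ⟨⟨c, c', -⟩, -⟩ := fix_all hF hC
  have hneg : ∀ p : ℍ[ℤ], R (-p) F = R p F := by
    intro p
    ext x
    rw [R_apply, R_apply]
    simp
  have key : ∀ (p u q : ℍ[ℤ]), R u F = F → p * u = -q → R p F = R q F := by
    intro p u q hu h
    have : R (p * u) F = R p F := by rw [map_mul, Module.End.mul_apply, hu]
    rw [← this, h, hneg]
  have t1 := key (mkq 1 2 0 0) (mkq 1 1 0 0) (qg' 0) a
  have t2 := key (mkq 1 (-2) 0 0) (mkq 1 (-1) 0 0) (qg 0) a'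
  have t3 := key (mkq 1 0 2 0) (mkq 1 0 1 0) (qg' 1) b
  have t4 := key (mkq 1 0 (-2) 0) (mkq 1 0 (-1) 0) (qg 1) b'
  have t5 := key (mkq 1 0 0 2) (mkq 1 0 0 1) (qg' 2) c
  have t6 := key (mkq 1 0 0 (-2)) (mkq 1 0 0 (-1)) (qg 2) c'
  have e : T5 F = R (mkq 1 2 0 0) F + R (mkq 1 (-2) 0 0) F + R (mkq 1 0 2 0) F +
      R (mkq 1 0 (-2) 0) F + R (mkq 1 0 0 2) F + R (mkq 1 0 0 (-2)) F := rfl
  rw [e, t1 rfl, t2 rfl, t3 rfl, t4 rfl, t5 rfl, t6 rfl, Op5]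
  simp only [LinearMap.add_apply]
  abel

theorem T7_eq {m : ℕ} {F : Fn} (hF : F ∈ A m) (hC : Cube F) : T7 F = Op7 F := by
  obtain ⟨-, f⟩ := fix_all hF hC
  have hneg : ∀ p : ℍ[ℤ], R (-p) F = R p F := by
    intro p
    ext x
    rw [R_apply, R_apply]
    simp
  have key : ∀ e₁ e₂ e₃ : ℤ, (e₁ = 1 ∨ e₁ = -1) → (e₂ = 1 ∨ e₂ = -1) → (e₃ = 1 ∨ e₃ = -1) →
      R (mkq 2 e₁ e₂ e₃) F = R (su (-e₁) (-e₂) (-e₃)) F := by
    intro e₁ e₂ e₃ h₁ h₂ h₃
    have h := f e₁ e₂ e₃ h₁ h₂ h₃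
    have : R (mkq 2 e₁ e₂ e₃ * mkq 1 e₁ e₂ e₃) F = R (mkq 2 e₁ e₂ e₃) F := by
      rw [map_mul, Module.End.mul_apply, h]
    rw [← this, ← hneg (su (-e₁) (-e₂) (-e₃))]
    congr 2
    rcases h₁ with rfl | rfl <;> rcases h₂ with rfl | rfl <;> rcases h₃ with rfl | rfl <;> rfl
  have e : T7 F = R (mkq 2 1 1 1) F + R (mkq 2 1 1 (-1)) F + R (mkq 2 1 (-1) 1) F +
      R (mkq 2 1 (-1) (-1)) F + R (mkq 2 (-1) 1 1) F + R (mkq 2 (-1) 1 (-1)) F +
      R (mkq 2 (-1) (-1) 1) F + R (mkq 2 (-1) (-1) (-1)) F := rfl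
  rw [e, key 1 1 1 (by decide) (by decide) (by decide),
    key 1 1 (-1) (by decide) (by decide) (by decide),
    key 1 (-1) 1 (by decide) (by decide) (by decide),
    key 1 (-1) (-1) (by decide) (by decide) (by decide),
    key (-1) 1 1 (by decide) (by decide) (by decide),
    key (-1) 1 (-1) (by decide) (by decide) (by decide),
    key (-1) (-1) 1 (by decide) (by decide) (by decide),
    key (-1) (-1) (-1) (by decide) (by decide) (by decide), Op7]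
  simp only [LinearMap.add_apply, neg_neg]
  abel

end

end KL

end TOR

end Pool.Agent.Lib.MP_7c5fb9_nt
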