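import Pool.Agent.Lib.MP_7c5fb9_nt.TOR.KL.F
import Pool.Agent.Lib.MP_7c5fb9_nt.TOR.Stmts

set_option autoImplicit false
set_option linter.unusedSimpArgs false

/-!
# Key lemma, part G: the end of the proof
-/

namespace Pool.Agent.Lib.MP_7c5fb9_nt

namespace TOR

namespace KL

open scoped Quaternion

noncomputable section

/-- The rotation of order three. -/
def om : ℍ[ℤ] := mkq 1 1 1 1

theorem om_X (a : Fin 3) : R om * X a = X (a + 1) * R om := by
  have h : om * qg a = qg (a + 1) * om := by fin_cases a <;> rfl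
  rw [X, X, mul_sub, sub_mul, ← map_mul, ← map_mul, h, mul_one, one_mul]

theorem om_Wd (l : List (Fin 3)) : R om * Wd l = Wd (l.map (· + 1)) * R om := by
  induction l with
  | nil => simp
  | cons a l ih =>
    rw [Wd_cons, List.map_cons, Wd_cons, ← mul_assoc, om_X, mul_assoc, ih, mul_assoc]

theorem om_val {m : ℕ} {G : Fn} (hG : G ∈ A m) (a : Fin 3) : R om G (Iq (a + 1)) = G (Iq a) := by
  have h : star om * Iq (a + 1) * om = ((4 : ℤ) : ℍ[ℤ]) * Iq a := by fin_cases a <;> rfl
  rw [R_apply, h, (mem_A.mp hG).scal _ _ (by decide)]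

theorem cyc {m : ℕ} {F : Fn} (hF : F ∈ A m) (hC : Cube F) (l : List (Fin 3)) (a : Fin 3) :
    Wd (l.map (· + 1)) F (Iq (a + 1)) = Wd l F (Iq a) := by
  have h1 : R om F = F := (fix_all hF hC).2 1 1 1 (by decide) (by decide) (by decide)
  have h2 : R om (Wd l F) = Wd (l.map (· + 1)) F := by
    rw [← Module.End.mul_apply, om_Wd, Module.End.mul_apply, h1]
  rw [← h2, om_val (Wd_A hF l)]

theorem of_val {m n : ℕ} {F : Fn} (hF : F ∈ Fil m (n + 1)) (hC : Cube F)
    (h : ∀ l : List (Fin 3), l.length = n → Wd l F (Iq 0) = 0) : F ∈ Fil m n := by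
  have hA := Fil_le_A hF
  have h1 : ∀ l : List (Fin 3), l.length = n → Wd l F (Iq 1) = 0 := by
    intro l hl
    have e : l = (l.map (· + 2)).map (· + 1) := by
      rw [List.map_map]
      conv_lhs => rw [← List.map_id l]
      refine List.map_congr_left fun a _ => ?_
      fin_cases a <;> rfl
    have := cyc hA hC (l.map (· + 2)) 0
    rw [← e, h _ (by simpa using hl)] at this
    exact this
  have h2 : ∀ l : List (Fin 3), l.length = n → Wd l F (Iq 2) = 0 := by
    intro l hl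
    have e : l = (l.map (· + 2)).map (· + 1) := by
      rw [List.map_map]
      conv_lhs => rw [← List.map_id l]
      refine List.map_congr_left fun a _ => ?_
      fin_cases a <;> rfl
    have := cyc hA hC (l.map (· + 2)) 1
    rw [← e, h1 _ (by simpa using hl)] at this
    exact this
  refine mem_Fil_of_words n F hA fun l hl => ?_
  refine K3_zero (Wd_fil hF l hl) fun a => ?_
  fin_cases a
  · exact h l hl
  · exact h1 l hl
  · exact h2 l hl

/-- Words with a letter `X` vanish at `i`. -/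
theorem val_zero {m n : ℕ} {F : Fn} (hF : F ∈ Fil m (n + 1)) (l : List (Fin 3))
    (hl : l.length = n) (h0 : (0 : Fin 3) ∈ l) : Wd l F (Iq 0) = 0 := by
  rw [Wd_perm_apply hF (List.perm_cons_erase h0) hl, Wd_cons, Module.End.mul_apply]
  exact X_zero (Wd_A (Fil_le_A hF) _) 0

/-- Values of words in `Y` and `Z`. -/
def vl (F : Fn) (b c : ℕ) : ZMod 3 := (X 1 ^ b * X 2 ^ c) F (Iq 0)

theorem vl_eq (F : Fn) (b c : ℕ) :
    vl F b c = Wd (List.replicate b 1 ++ List.replicate c 2) F (Iq 0) := by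
  rw [Wd_append, Wd_replicate, Wd_replicate, vl]

theorem val_vl {m n : ℕ} {F : Fn} (hF : F ∈ Fil m (n + 1)) (l : List (Fin 3))
    (hl : l.length = n) (h0 : (0 : Fin 3) ∉ l) :
    Wd l F (Iq 0) = vl F (l.count 1) (l.count 2) ∧ l.count 1 + l.count 2 = n := by
  have hp : l.Perm (List.replicate (l.count 1) 1 ++ List.replicate (l.count 2) 2) := by
    rw [List.perm_iff_count]
    intro a
    fin_cases a
    · simp [List.count_replicate, List.count_eq_zero.mpr h0]
    · simp [List.count_replicate]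
    · simp [List.count_replicate]
  refine ⟨?_, ?_⟩
  · rw [vl_eq, Wd_perm_apply hF hp hl]
  · have := hp.length_eq
    simp only [List.length_append, List.length_replicate] at this
    omega

/-- any word with `b` letters `Y` and `c` letters `Z` -/
theorem vl_word {m n : ℕ} {F : Fn} (hF : F ∈ Fil m (n + 1)) (l : List (Fin 3)) (b c : ℕ)
    (hp : l.Perm (List.replicate b 1 ++ List.replicate c 2)) (hn : b + c = n) :
    Wd l F (Iq 0) = vl F b c := by
  have hl : l.length = n := by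
    have := hp.length_eq
    simp only [List.length_append, List.length_replicate] at this
    omega
  rw [vl_eq, Wd_perm_apply hF hp hl]

theorem semi_pow {u x y : Op} (h : u * x = y * u) (n : ℕ) : u * x ^ n = y ^ n * u := by
  induction n with
  | zero => simp
  | succ n ih => rw [pow_succ, ← mul_assoc, ih, mul_assoc, h, ← mul_assoc, ← pow_succ]

theorem X'_pow {m : ℕ} (a : Fin 3) (c : ℕ) :
    X' a ^ c - ((-1 : ZMod 3) ^ c) • X a ^ c ∈ E m (c + 1) := by
  induction c with
  | zero =>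
    rw [pow_zero, pow_zero, pow_zero, one_smul, sub_self]
    exact Submodule.zero_mem _
  | succ c ih =>
    have e : X' a ^ (c + 1) - ((-1 : ZMod 3) ^ (c + 1)) • X a ^ (c + 1) =
        (X' a ^ c - ((-1 : ZMod 3) ^ c) • X a ^ c) * X' a +
          ((-1 : ZMod 3) ^ c) • (X a ^ c * (X' a + X a)) := by
      rw [pow_succ, pow_succ, pow_succ, mul_neg_one]
      obtain ⟨s, hs⟩ : ∃ s : ZMod 3, s = (-1) ^ c := ⟨_, rfl⟩
      rw [← hs]
      have hneg : ∀ (s : ZMod 3) (L : Op), (-s) • L = -(s • L) := by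
        intro s L
        ext F x
        change (-s) * (L F x) = -(s * L F x)
        exact neg_mul _ _
      rw [hneg, sub_neg_eq_add, sub_mul, smul_mul_assoc, mul_add, smul_add]
      abel
    rw [e]
    have h1 : X' a + X a ∈ E m 2 := by
      rw [add_comm, ← Aa_eq]
      exact Aa_mem a
    have h2 : X a ^ c ∈ E m (c * 1) := E_pow (X_mem_E a) c
    exact Submodule.add_mem _ (E_mul' ih (X'_mem a) (by omega))
      (Submodule.smul_mem _ _ (E_mul' h2 h1 (by omega)))

theorem words_A {m : ℕ} {F : Fn} (hA : F ∈ A m) (b c : ℕ) : (X 1 ^ b * X 2 ^ c) F ∈ A m := by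
  have := Wd_A hA (List.replicate b 1 ++ List.replicate c 2)
  rwa [Wd_append, Wd_replicate, Wd_replicate] at this

/-- (S1) -/
theorem S1 {m n : ℕ} {F : Fn} (hF : F ∈ Fil m (n + 1)) (hC : Cube F) (b c : ℕ)
    (hn : b + c = n) : vl F b c = (-1) ^ c * vl F c b := by
  have hA := Fil_le_A hF
  have hu := (fixes hA hC).1
  set u : ℍ[ℤ] := mkq 1 1 0 0 with hud
  have h1 : R u * X 1 = X 2 * R u := by
    have h : u * qg 1 = qg 2 * u := rfl
    rw [X, X, mul_sub, sub_mul, ← map_mul, ← map_mul, h, mul_one, one_mul]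
  have h2 : R u * X 2 = X' 1 * R u := by
    have h : u * qg 2 = qg' 1 * u := rfl
    rw [X, X', mul_sub, sub_mul, ← map_mul, ← map_mul, h, mul_one, one_mul]
  have h3 : R u ((X 1 ^ b * X 2 ^ c) F) (Iq 0) = vl F b c := by
    have h : star u * Iq 0 * u = ((2 : ℤ) : ℍ[ℤ]) * Iq 0 := rfl
    rw [R_apply, h, (mem_A.mp (words_A hA b c)).scal _ _ (by decide), vl]
  have h4 : R u ((X 1 ^ b * X 2 ^ c) F) = (X 2 ^ b * X' 1 ^ c) F := by
    rw [← Module.End.mul_apply, ← mul_assoc, semi_pow h1, mul_assoc, semi_pow h2, ← mul_assoc,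
      Module.End.mul_apply, hu]
  have h5 : (X 2 ^ b * X' 1 ^ c) F = ((-1 : ZMod 3) ^ c) • (X 2 ^ b * X 1 ^ c) F := by
    have h6 := X'_pow (m := m) 1 c
    have h7 : X 2 ^ b ∈ E m (b * 1) := E_pow (X_mem_E 2) b
    have h8 := E_zero (E_mul' (t := n + 1) h7 h6 (by omega)) hF
    rw [mul_sub, LinearMap.sub_apply, mul_smul_comm, LinearMap.smul_apply] at h8
    exact sub_eq_zero.mp h8
  have h10 : (X 2 ^ b * X 1 ^ c) F (Iq 0) = vl F c b := by
    have := vl_word hF (List.replicate b 2 ++ List.replicate c 1) c b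
      List.perm_append_comm (by omega)
    rwa [Wd_append, Wd_replicate, Wd_replicate] at this
  rw [← h3, h4, h5, Pi.smul_apply, h10, smul_eq_mul]

/-- (S2) -/
theorem S2 {m n : ℕ} {F : Fn} (hF : F ∈ Fil m (n + 1)) (hC : Cube F) (b c : ℕ)
    (hn : b + c = n) : vl F b c = (-1) ^ c * vl F b c := by
  have hA := Fil_le_A hF
  have hu := (fix_all hA hC).1.2.2
  set u : ℍ[ℤ] := mkq 0 0 1 0 with hud
  have h1 : R u * X 1 = X 1 * R u := by
    have h : u * qg 1 = qg 1 * u := rfl
    rw [X, mul_sub, sub_mul, ← map_mul, ← map_mul, h, mul_one, one_mul]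
  have h2 : R u * X 2 = X' 2 * R u := by
    have h : u * qg 2 = qg' 2 * u := rfl
    rw [X, X', mul_sub, sub_mul, ← map_mul, ← map_mul, h, mul_one, one_mul]
  have h3 : R u ((X 1 ^ b * X 2 ^ c) F) (Iq 0) = vl F b c := by
    have h : star u * Iq 0 * u = ((-1 : ℤ) : ℍ[ℤ]) * Iq 0 := rfl
    rw [R_apply, h, (mem_A.mp (words_A hA b c)).scal _ _ (by decide), vl]
  have h4 : R u ((X 1 ^ b * X 2 ^ c) F) = (X 1 ^ b * X' 2 ^ c) F := by
    rw [← Module.End.mul_apply, ← mul_assoc, semi_pow h1, mul_assoc, semi_pow h2, ← mul_assoc,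
      Module.End.mul_apply, hu]
  have h5 : (X 1 ^ b * X' 2 ^ c) F = ((-1 : ZMod 3) ^ c) • (X 1 ^ b * X 2 ^ c) F := by
    have h6 := X'_pow (m := m) 2 c
    have h7 : X 1 ^ b ∈ E m (b * 1) := E_pow (X_mem_E 1) b
    have h8 := E_zero (E_mul' (t := n + 1) h7 h6 (by omega)) hF
    rw [mul_sub, LinearMap.sub_apply, mul_smul_comm, LinearMap.smul_apply] at h8
    exact sub_eq_zero.mp h8
  calc vl F b c = ((X 1 ^ b * X' 2 ^ c) F) (Iq 0) := by rw [← h3, h4]
    _ = (-1) ^ c * vl F b c := by rw [h5, Pi.smul_apply, smul_eq_mul, vl]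

/-- (S3) -/
theorem S3 {m n : ℕ} {F : Fn} (hF : F ∈ Fil m (n + 1)) (h5 : Op5 F = 0) (b c : ℕ)
    (hn : b + c + 2 = n) : vl F (b + 2) c + vl F b (c + 2) = 0 := by
  have hw : X 1 ^ b * X 2 ^ c ∈ E m (b + c) := by
    have := Wd_mem (m := m) (List.replicate b 1 ++ List.replicate c 2)
    rw [Wd_append, Wd_replicate, Wd_replicate] at this
    simpa using this
  have h1 := E_zero (E_mul' (t := n + 1) hw (sym5 (m := m)) (by omega)) hF
  rw [mul_sub, LinearMap.sub_apply, Module.End.mul_apply, h5, map_zero, zero_sub,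
    neg_eq_zero, mul_add, mul_add, LinearMap.add_apply, LinearMap.add_apply] at h1
  have h2 := congrFun h1 (Iq 0)
  rw [Pi.add_apply, Pi.add_apply] at h2
  have e0 : (X 1 ^ b * X 2 ^ c * (X 0 * X 0)) F (Iq 0) = 0 := by
    have := val_zero hF (List.replicate b 1 ++ List.replicate c 2 ++ [0, 0]) (by simp; omega)
      (by simp)
    rw [Wd_append, Wd_append, Wd_replicate, Wd_replicate] at this
    rw [Wd_cons, Wd_cons, Wd_nil, mul_one] at this
    exact this
  have e1 : (X 1 ^ b * X 2 ^ c * (X 1 * X 1)) F (Iq 0) = vl F (b + 2) c := by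
    have := vl_word hF (List.replicate b 1 ++ List.replicate c 2 ++ [1, 1]) (b + 2) c
      (by
        rw [List.perm_iff_count]
        intro a
        fin_cases a <;> simp [List.count_replicate]) (by omega)
    rw [Wd_append, Wd_append, Wd_replicate, Wd_replicate] at this
    rw [Wd_cons, Wd_cons, Wd_nil, mul_one] at this
    exact this
  have e2 : (X 1 ^ b * X 2 ^ c * (X 2 * X 2)) F (Iq 0) = vl F b (c + 2) := by
    have := vl_word hF (List.replicate b 1 ++ List.replicate c 2 ++ [2, 2]) b (c + 2)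
      (by
        rw [List.perm_iff_count]
        intro a
        fin_cases a <;> simp [List.count_replicate]) (by omega)
    rw [Wd_append, Wd_append, Wd_replicate, Wd_replicate] at this
    rw [Wd_cons, Wd_cons, Wd_nil, mul_one] at this
    exact this
  rw [e0, e1, e2, zero_add] at h2
  exact h2

/-- (S4) -/
theorem S4 {m n : ℕ} {F : Fn} (hF : F ∈ Fil m (n + 1)) (h5 : Op5 F = 0) (h7 : Op7 F = (2 : Op) F)
    (b c : ℕ) (hn : b + c + 4 = n) : vl F (b + 2) (c + 2) = 0 := by
  have hw : X 1 ^ b * X 2 ^ c ∈ E m (b + c) := by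
    have := Wd_mem (m := m) (List.replicate b 1 ++ List.replicate c 2)
    rw [Wd_append, Wd_replicate, Wd_replicate] at this
    simpa using this
  have h1 := E_zero (E_mul' (t := n + 1) hw (sym7 (m := m)) (by omega)) hF
  have h0 : (Op7 - Op5 - 2) F = 0 := by
    rw [LinearMap.sub_apply, LinearMap.sub_apply, h7, h5, sub_zero, sub_self]
  rw [mul_sub, LinearMap.sub_apply, Module.End.mul_apply, h0, map_zero, zero_sub,
    neg_eq_zero, mul_smul_comm, LinearMap.smul_apply, mul_add, mul_add, LinearMap.add_apply,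
    LinearMap.add_apply] at h1
  have h2 := congrFun h1 (Iq 0)
  rw [Pi.smul_apply, Pi.add_apply, Pi.add_apply] at h2
  have e0 : (X 1 ^ b * X 2 ^ c * (X 0 * X 0 * (X 1 * X 1))) F (Iq 0) = 0 := by
    have := val_zero hF (List.replicate b 1 ++ List.replicate c 2 ++ [0, 0, 1, 1])
      (by simp; omega) (by simp)
    rw [Wd_append, Wd_append, Wd_replicate, Wd_replicate] at this
    rw [Wd_cons, Wd_cons, Wd_cons, Wd_cons, Wd_nil, mul_one, ← mul_assoc (X 0) (X 0)] at this
    exact this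
  have e1 : (X 1 ^ b * X 2 ^ c * (X 0 * X 0 * (X 2 * X 2))) F (Iq 0) = 0 := by
    have := val_zero hF (List.replicate b 1 ++ List.replicate c 2 ++ [0, 0, 2, 2])
      (by simp; omega) (by simp)
    rw [Wd_append, Wd_append, Wd_replicate, Wd_replicate] at this
    rw [Wd_cons, Wd_cons, Wd_cons, Wd_cons, Wd_nil, mul_one, ← mul_assoc (X 0) (X 0)] at this
    exact this
  have e2 : (X 1 ^ b * X 2 ^ c * (X 1 * X 1 * (X 2 * X 2))) F (Iq 0) =
      vl F (b + 2) (c + 2) := by
    have := vl_word hF (List.replicate b 1 ++ List.replicate c 2 ++ [1, 1, 2, 2]) (b + 2) (c + 2)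
      (by
        rw [List.perm_iff_count]
        intro a
        fin_cases a <;> simp [List.count_replicate]) (by omega)
    rw [Wd_append, Wd_append, Wd_replicate, Wd_replicate] at this
    rw [Wd_cons, Wd_cons, Wd_cons, Wd_cons, Wd_nil, mul_one, ← mul_assoc (X 1) (X 1)] at this
    exact this
  rw [e0, e1, e2, zero_add, zero_add] at h2
  have h3 : (2 : ℤ) • vl F (b + 2) (c + 2) = 0 := h2
  revert h3
  generalize vl F (b + 2) (c + 2) = t
  revert t
  decide

/-- All values vanish. -/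
theorem vl_zero {m n : ℕ} {F : Fn} (hF : F ∈ Fil m (n + 1)) (hC : Cube F) (h5 : Op5 F = 0)
    (h7 : Op7 F = (2 : Op) F) (hn : 1 ≤ n) (b c : ℕ) (hbc : b + c = n) : vl F b c = 0 := by
  have two : ∀ t : ZMod 3, t = -t → t = 0 := by decide
  have odd_c : ∀ b c, b + c = n → Odd c → vl F b c = 0 := by
    intro b c h ho
    have := S2 hF hC b c h
    rw [ho.neg_one_pow, neg_one_mul] at this
    exact two _ this
  have odd_b : ∀ b c, b + c = n → Odd b → vl F b c = 0 := by
    intro b c h ho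
    rw [S1 hF hC b c h, odd_c c b (by omega) ho, mul_zero]
  by_cases hc : Odd c
  · exact odd_c b c hbc hc
  by_cases hb : Odd b
  · exact odd_b b c hbc hb
  rw [Nat.not_odd_iff_even] at hb hc
  have mid : ∀ b c, b + c = n → 2 ≤ b → 2 ≤ c → vl F b c = 0 := by
    intro b c h h2 h2'
    obtain ⟨b', rfl⟩ : ∃ b', b = b' + 2 := ⟨b - 2, by omega⟩
    obtain ⟨c', rfl⟩ : ∃ c', c = c' + 2 := ⟨c - 2, by omega⟩
    exact S4 hF h5 h7 b' c' (by omega)
  have main : Even n → vl F n 0 = 0 := by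
    intro hev
    obtain ⟨k, hk⟩ := hev
    have h1 := S3 hF h5 (n - 2) 0 (by omega)
    rw [show n - 2 + 2 = n by omega, zero_add] at h1
    by_cases h4 : 4 ≤ n
    · rw [mid (n - 2) 2 (by omega) (by omega) le_rfl, add_zero] at h1
      exact h1
    · have h2 : n = 2 := by omega
      have h3 := S1 hF hC 0 2 (by omega)
      rw [h2] at h1 ⊢
      rw [show (2 : ℕ) - 2 = 0 from rfl, h3] at h1
      have : vl F 2 0 + vl F 2 0 = 0 := by
        rwa [Even.neg_one_pow (by decide), one_mul] at h1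
      exact two _ (eq_neg_of_add_eq_zero_left this)
  have hn' : Even n := by rw [← hbc]; exact hb.add hc
  by_cases h2 : 2 ≤ b
  · by_cases h3 : 2 ≤ c
    · exact mid b c hbc h2 h3
    · have : c = 0 := by
        obtain ⟨k, hk⟩ := hc
        omega
      subst this
      rw [show b = n by omega]
      exact main hn'
  · have : b = 0 := by
      obtain ⟨k, hk⟩ := hb
      omega
    subst this
    rw [show c = n by omega, S1 hF hC 0 n (by omega), main hn', mul_zero]

/-- (K4) -/
theorem K4 {m n : ℕ} {F : Fn} (hF : F ∈ Fil m (n + 1)) (hC : Cube F) (h5 : Op5 F = 0)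
    (h7 : Op7 F = (2 : Op) F) (hn : 1 ≤ n) : F ∈ Fil m n := by
  refine of_val hF hC fun l hl => ?_
  by_cases h0 : (0 : Fin 3) ∈ l
  · exact val_zero hF l hl h0
  · obtain ⟨h1, h2⟩ := val_vl hF l hl h0
    rw [h1]
    exact vl_zero hF hC h5 h7 hn _ _ h2

theorem Op5_mem {m : ℕ} : Op5 ∈ E m 2 := by
  have h := E_anti (show 2 ≤ 3 by omega) (sym5 (m := m))
  have h2 : X 0 * X 0 + X 1 * X 1 + X 2 * X 2 ∈ E m 2 :=
    Submodule.add_mem _ (Submodule.add_mem _ (E_mul' (X_mem_E 0) (X_mem_E 0) (by omega))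
      (E_mul' (X_mem_E 1) (X_mem_E 1) (by omega))) (E_mul' (X_mem_E 2) (X_mem_E 2) (by omega))
  have := Submodule.add_mem _ h h2
  rwa [sub_add_cancel] at this

theorem Op7_mem {m : ℕ} : Op7 - 2 ∈ E m 2 := by
  have h := E_anti (show 2 ≤ 5 by omega) (sym7 (m := m))
  have hx : ∀ a : Fin 3, X a * X a ∈ E m 2 := fun a =>
    E_mul' (X_mem_E a) (X_mem_E a) (by omega)
  have h2 : (2 : ℤ) • (X 0 * X 0 * (X 1 * X 1) + X 0 * X 0 * (X 2 * X 2) +
      X 1 * X 1 * (X 2 * X 2)) ∈ E m 2 := by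
    rw [two_smul]
    have := Submodule.add_mem _ (Submodule.add_mem _ (E_mul' (t := 2) (hx 0) (hx 1) (by omega))
      (E_mul' (t := 2) (hx 0) (hx 2) (by omega))) (E_mul' (t := 2) (hx 1) (hx 2) (by omega))
    exact Submodule.add_mem _ this this
  have h3 := Submodule.add_mem _ (Submodule.add_mem _ h h2) (Op5_mem (m := m))
  have e : Op7 - 2 = Op7 - Op5 - 2 - (2 : ℤ) • (X 0 * X 0 * (X 1 * X 1) +
      X 0 * X 0 * (X 2 * X 2) + X 1 * X 1 * (X 2 * X 2)) + (2 : ℤ) • (X 0 * X 0 * (X 1 * X 1) +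
      X 0 * X 0 * (X 2 * X 2) + X 1 * X 1 * (X 2 * X 2)) + Op5 := by abel
  rw [e]
  exact h3

end

end KL

open scoped Quaternion

/-- The key lemma. -/
theorem stKL : StKL := by
  intro m G hG h5 h7 hne
  obtain ⟨F₀, hF₀, hF₀'⟩ := Submodule.exists_mem_ne_zero_of_ne_bot hne
  have hA : ∀ F ∈ G, F ∈ KL.A m := fun F hF => (hG F hF).1
  have hex : ∃ d, ∃ F ∈ G, F ≠ 0 ∧ F ∈ KL.Fil m d := by
    obtain ⟨d, hd⟩ := KL.K2 (hA F₀ hF₀)
    exact ⟨d, F₀, hF₀, hF₀', hd⟩
  classical
  obtain ⟨F, hF, hF', hd⟩ := Nat.find_spec hex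
  have hmin : ∀ d < Nat.find hex, ∀ F ∈ G, F ∈ KL.Fil m d → F = 0 := by
    intro d hlt F hF hFd
    by_contra hne
    exact Nat.find_min hex hlt ⟨F, hF, hne, hFd⟩
  set D := Nat.find hex with hD
  have hD0 : D ≠ 0 := by
    intro h0
    rw [h0] at hd
    exact hF' hd
  obtain ⟨n, hn⟩ : ∃ n, D = n + 1 := ⟨D - 1, by omega⟩
  rw [hn] at hd hmin
  have hC := (hG F hF).2
  have hFA := hA F hF
  have e5 : KL.Op5 F = 0 := by
    rw [← KL.T5_eq hFA hC]
    refine hmin n (by omega) _ (h5 F hF) ?_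
    rw [KL.T5_eq hFA hC]
    exact KL.Op5_mem n F (KL.Fil_mono (by omega) hd)
  have e7 : KL.Op7 F = (2 : KL.Op) F := by
    have h1 : (KL.Op7 - 2) F = 0 := by
      refine hmin n (by omega) _ ?_ (KL.Op7_mem n F (KL.Fil_mono (by omega) hd))
      rw [LinearMap.sub_apply, ← KL.T7_eq hFA hC]
      refine Submodule.sub_mem _ (h7 F hF) ?_
      have : (2 : KL.Op) F = F + F := by
        rw [← one_add_one_eq_two (R := KL.Op)]
        rfl
      rw [this]
      exact Submodule.add_mem _ hF hF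
    rw [LinearMap.sub_apply] at h1
    exact sub_eq_zero.mp h1
  have hn0 : n = 0 := by
    by_contra h0
    exact hF' (hmin n (by omega) F hF (KL.K4 hd hC e5 e7 (by omega)))
  subst hn0
  -- now `F` is constant
  have hL := (hG F hF).1
  have hcyc : ∀ a : Fin 3, F (KL.Iq (a + 1)) = F (KL.Iq a) := by
    intro a
    have := KL.cyc hFA hC [] a
    simpa using this
  have hI : ∀ a : Fin 3, F (KL.Iq a) = F (KL.Iq 0) := by
    intro a
    have h1 := hcyc 0
    have h2 := hcyc 1
    fin_cases a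
    · rfl
    · exact h1
    · exact h2.trans h1
  have hval : ∀ x, F x = F (KL.Iq 0) * one3 x := by
    intro x
    unfold one3
    by_cases hx : (x.imI ^ 2 + x.imJ ^ 2 + x.imK ^ 2) % 3 = 1
    · rw [if_pos hx, mul_one]
      obtain ⟨a, ha⟩ := KL.K3 hd hx
      rw [ha, hI a]
    · rw [if_neg hx, mul_zero]
      exact hL.supp x hx
  have hne0 : F (KL.Iq 0) ≠ 0 := by
    intro h0
    apply hF'
    ext x
    rw [hval x, h0, zero_mul]
    rfl
  have hone : one3 = (F (KL.Iq 0))⁻¹ • F := by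
    ext x
    rw [Pi.smul_apply, smul_eq_mul, hval x, ← mul_assoc, inv_mul_cancel₀ hne0, one_mul]
  rw [hone]
  exact Submodule.smul_mem _ _ hF

end TOR

end Pool.Agent.Lib.MP_7c5fb9_nt
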